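import Pool.Agent.Lib.MP_648c71_nt.IC.Defs

set_option autoImplicit false

open ArithmeticFunction

namespace Pool.Agent.Lib.MP_648c71_nt.IC

/-- The Liouville function on the integers (value 1 at 0). -/
noncomputable def l (n : ℤ) : ℤ := (-1) ^ cardFactors n.natAbs

lemma l_mul {a b : ℤ} (ha : a ≠ 0) (hb : b ≠ 0) : l (a * b) = l a * l b := by
  unfold l
  rw [Int.natAbs_mul, cardFactors_mul (Int.natAbs_ne_zero.2 ha) (Int.natAbs_ne_zero.2 hb), pow_add]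

lemma l_one_or (a : ℤ) : l a = 1 ∨ l a = -1 := by
  unfold l
  exact neg_one_pow_eq_or ℤ _

lemma three_roots (a b c : ℂ) :
    ∃ u v w : ℂ, ∀ x : ℂ, x ^ 3 + a * x ^ 2 + b * x + c = (x - u) * (x - v) * (x - w) := by
  obtain ⟨u, hu⟩ : ∃ u : ℂ, u ^ 3 + a * u ^ 2 + b * u + c = 0 := by
    have hdeg : (Cubic.toPoly ⟨1, a, b, c⟩ : Polynomial ℂ).degree ≠ 0 := by
      rw [Cubic.degree_of_a_ne_zero (by norm_num)]
      norm_num
    obtain ⟨u, hu⟩ := IsAlgClosed.exists_root _ hdeg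
    refine ⟨u, ?_⟩
    simpa [Cubic.toPoly, Polynomial.IsRoot] using hu
  obtain ⟨s, hs⟩ := IsAlgClosed.exists_pow_nat_eq ((a + u) ^ 2 - 4 * (b + u * (a + u))) (n := 2) (by norm_num)
  refine ⟨u, (-(a + u) + s) / 2, (-(a + u) - s) / 2, fun x => ?_⟩
  linear_combination hu + (x - u) / 4 * hs

lemma combine (t a1 a2 a3 a4 a5 a6 a7 b1 b2 b3 b4 b5 b6 b7 c1 c2 c3 c4 c5 c6 c7 : ℂ)
    (ha : a1 * a2 * a3 * a4 = t * (a5 * a6 * a7)) (hb : b1 * b2 * b3 * b4 = t * (b5 * b6 * b7))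
    (hc : c1 * c2 * c3 * c4 = t * (c5 * c6 * c7)) :
    (a1 * b1 * c1) * (a2 * b2 * c2) * (a3 * b3 * c3) * (a4 * b4 * c4) =
      t ^ 3 * ((a5 * b5 * c5) * (a6 * b6 * c6) * (a7 * b7 * c7)) := by
  calc _ = (a1 * a2 * a3 * a4) * (b1 * b2 * b3 * b4) * (c1 * c2 * c3 * c4) := by ring
    _ = _ := by
      rw [ha, hb, hc]
      ring

/-- The seven-term identity. -/
lemma seven (d t m y r r' z : ℤ) (h1 : r + r' = t) (h2 : r * r' = -m * y ^ 2)
    (h3 : t * z = (y ^ 2 - 1) * (d ^ 2 * y ^ 2 - m)) (F : ℤ → ℤ)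
    (hF : ∀ n, F n = n ^ 3 + d * n ^ 2 + (d * t - m) * n - d * m) :
    F (d * y) * F (-(d * y)) * F (d * y ^ 2 + r - d) * F (d * y ^ 2 + r' - d) =
      t ^ 3 * (F (d * y - d) * F (-(d * y) - d) * F (d * y ^ 2 + z)) := by
  obtain ⟨u, v, w, hr⟩ := three_roots (d : ℂ) ((d : ℂ) * t - m) (-(d : ℂ) * m)
  have hFc : ∀ n : ℤ, (F n : ℂ) = ((n : ℂ) - u) * ((n : ℂ) - v) * ((n : ℂ) - w) := by
    intro n
    rw [← hr, hF]
    push_cast
    ring
  have h1c : (r : ℂ) + r' = t := by exact_mod_cast h1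
  have h2c : (r : ℂ) * r' = -m * y ^ 2 := by exact_mod_cast h2
  have h3c : (t : ℂ) * z = (y ^ 2 - 1) * (d ^ 2 * y ^ 2 - m) := by exact_mod_cast h3
  have hr' : (r' : ℂ) = t - r := by rw [← h1c]; ring
  rw [hr'] at h2c
  have key : ∀ θ : ℂ, θ ^ 3 + d * θ ^ 2 + ((d : ℂ) * t - m) * θ + -(d : ℂ) * m = 0 →
      (d * y - θ) * (-(d * y) - θ) * (d * y ^ 2 + r - d - θ) * (d * y ^ 2 + (t - r) - d - θ) =
        t * ((d * y - d - θ) * (-(d * y) - d - θ) * (d * y ^ 2 + z - θ)) := by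
    intro θ hθ
    linear_combination (θ - (2 * d * y ^ 2 - d)) * hθ + (θ ^ 2 - d ^ 2 * y ^ 2) * h2c - ((θ + d) ^ 2 - d ^ 2 * y ^ 2) * h3c
  have ku := key u (by rw [hr]; ring)
  have kv := key v (by rw [hr]; ring)
  have kw := key w (by rw [hr]; ring)
  have goalc : ((F (d * y) * F (-(d * y)) * F (d * y ^ 2 + r - d) * F (d * y ^ 2 + r' - d) : ℤ) : ℂ) =
      ((t ^ 3 * (F (d * y - d) * F (-(d * y) - d) * F (d * y ^ 2 + z)) : ℤ) : ℂ) := by
    push_cast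
    rw [hFc, hFc, hFc, hFc, hFc, hFc, hFc]
    push_cast
    rw [hr']
    exact combine _ _ _ _ _ _ _ _ _ _ _ _ _ _ _ _ _ _ _ _ _ _ ku kv kw
  exact_mod_cast goalc

lemma sign_lemma {g : ℤ → ℤ} (hg : ∀ a, g a = 1 ∨ g a = -1) (hgm : ∀ a b, a ≠ 0 → b ≠ 0 → g (a * b) = g a * g b)
    {t a1 a2 a3 a4 a5 a6 a7 : ℤ} (ht : t ≠ 0) (h1 : a1 ≠ 0) (h2 : a2 ≠ 0) (h3 : a3 ≠ 0)
    (h4 : a4 ≠ 0) (h5 : a5 ≠ 0) (h6 : a6 ≠ 0) (h7 : a7 ≠ 0)
    (h : a1 * a2 * a3 * a4 = t ^ 3 * (a5 * a6 * a7)) :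
    g a1 = g t ∨ g a2 = g t ∨ g a3 = g t ∨ g a4 = g t ∨ g a5 = g t ∨ g a6 = g t ∨ g a7 = g t := by
  have e : g a1 * g a2 * g a3 * g a4 = g t * g t * g t * (g a5 * g a6 * g a7) := by
    have e1 : g (a1 * a2 * a3 * a4) = g a1 * g a2 * g a3 * g a4 := by
      rw [hgm _ _ (by positivity) h4, hgm _ _ (by positivity) h3, hgm _ _ h1 h2]
    have e2 : g (t ^ 3 * (a5 * a6 * a7)) = g t * g t * g t * (g a5 * g a6 * g a7) := by
      have : t ^ 3 = t * t * t := by ring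
      rw [hgm _ _ (by positivity) (by positivity), hgm _ _ (by positivity) h7, hgm _ _ h5 h6, this,
        hgm _ _ (by positivity) ht, hgm _ _ ht ht]
    rw [← e1, ← e2, h]
  by_contra hc
  push Not at hc
  obtain ⟨c1, c2, c3, c4, c5, c6, c7⟩ := hc
  have flip : ∀ a, g a ≠ g t → g a = - g t := by
    intro a ha
    rcases hg a with h | h <;> rcases hg t with h' | h' <;> simp_all
  rw [flip _ c1, flip _ c2, flip _ c3, flip _ c4, flip _ c5, flip _ c6, flip _ c7] at e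
  rcases hg t with h' | h' <;> rw [h'] at e <;> norm_num at e

lemma not_sq_mul {m c : ℤ} (hc : c ≠ 0) (hns : ¬ IsSquare m) : ¬ IsSquare (m * c ^ 2) := by
  rintro ⟨k, hk⟩
  apply hns
  have h1 : c ^ 2 ∣ k ^ 2 := ⟨m, by rw [sq k, ← hk]; ring⟩
  obtain ⟨e, rfl⟩ := (Int.pow_dvd_pow_iff (by norm_num)).1 h1
  refine ⟨e, ?_⟩
  have h2 : c ^ 2 * m = c ^ 2 * (e * e) := by rw [mul_comm, hk]; ring
  exact mul_left_cancel₀ (pow_ne_zero 2 hc) h2

lemma orbit {t m x0 y0 N : ℤ} (ht : t ≠ 0) (hm : 0 < m) (hns : ¬ IsSquare m) (hx0 : 0 < x0) (hy0 : 0 ≤ y0)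
    (h : x0 ^ 2 = t ^ 2 + 4 * m * y0 ^ 2) (hN : 0 < N) :
    ∃ (x y : ℕ → ℤ) (G : ℤ), 1 < G ∧ ∀ j : ℕ, 0 < x j ∧ (j : ℤ) ≤ y j ∧ (x j) ^ 2 = t ^ 2 + 4 * m * (y j) ^ 2 ∧
      t ∣ y j - y0 ∧ N * y j ≤ y (j + 1) ∧ x j + y j ≤ G ^ j * (x0 + y0) := by
  obtain ⟨a, b, hab, hb⟩ := Pell.exists_of_not_isSquare (d := m * (t * N) ^ 2)
    (by positivity) (not_sq_mul (by positivity) hns)
  have ha : a ≠ 0 := by
    rintro rfl
    have : 0 < m * (t * N) ^ 2 * b ^ 2 := by positivity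
    nlinarith
  set A : ℤ := 1 + 2 * m * (t * N) ^ 2 * b ^ 2 with hA
  set C : ℤ := |a * (t * N) * b| with hC
  have hCpos : 0 < C := abs_pos.2 (by positivity)
  have hC2 : C ^ 2 = a ^ 2 * (t * N) ^ 2 * b ^ 2 := by rw [hC, sq_abs]; ring
  have hAC : A ^ 2 - 4 * m * C ^ 2 = 1 := by
    rw [hC2, hA]
    linear_combination (-4 * m * (t * N) ^ 2 * b ^ 2) * hab
  have htC : t ∣ C := by
    rw [hC, dvd_abs]
    exact ⟨a * N * b, by ring⟩
  have htA : t ∣ A - 1 := ⟨2 * m * t * N ^ 2 * b ^ 2, by rw [hA]; ring⟩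
  have hb2 : 1 ≤ b ^ 2 := by
    have : 0 < b ^ 2 := by positivity
    omega
  have ht2 : 1 ≤ t ^ 2 := by
    have : 0 < t ^ 2 := by positivity
    omega
  have hAN : N ≤ A := by
    have h1 : N ≤ N ^ 2 := by nlinarith
    have h2 : N ^ 2 ≤ (t * N) ^ 2 * b ^ 2 := by
      have : N ^ 2 * 1 ≤ N ^ 2 * (t ^ 2 * b ^ 2) := mul_le_mul_of_nonneg_left (by nlinarith) (by positivity)
      calc N ^ 2 = N ^ 2 * 1 := by ring
        _ ≤ _ := this
        _ = _ := by ring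
    have h3 : (t * N) ^ 2 * b ^ 2 ≤ 2 * m * (t * N) ^ 2 * b ^ 2 := by
      have : 0 ≤ (t * N) ^ 2 * b ^ 2 := by positivity
      nlinarith
    rw [hA]
    linarith
  have hA1 : 1 ≤ A := by linarith
  let s : ℕ → ℤ × ℤ := fun j => Nat.rec (x0, y0) (fun _ p => (A * p.1 + 4 * m * C * p.2, A * p.2 + C * p.1)) j
  have hs : ∀ j, s (j + 1) = (A * (s j).1 + 4 * m * C * (s j).2, A * (s j).2 + C * (s j).1) := fun j => rfl
  have hs0 : s 0 = (x0, y0) := rfl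
  have hbase : ∀ j : ℕ, 0 < (s j).1 ∧ (j : ℤ) ≤ (s j).2 ∧ ((s j).1) ^ 2 = t ^ 2 + 4 * m * ((s j).2) ^ 2 ∧
      t ∣ (s j).2 - y0 ∧ (s j).1 + (s j).2 ≤ (A + 4 * m * C + C) ^ j * (x0 + y0) := by
    intro j
    induction j with
    | zero => exact ⟨by rw [hs0]; exact hx0, by rw [hs0]; simpa using hy0, by rw [hs0]; exact h, by rw [hs0]; simp, by rw [hs0]; simp⟩
    | succ j ih =>
      obtain ⟨i1, i2, i3, i4, i5⟩ := ih
      have hy : 0 ≤ (s j).2 := le_trans (by positivity) i2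
      rw [hs]
      refine ⟨by positivity, ?_, ?_, ?_, ?_⟩
      · push_cast
        nlinarith [mul_pos hCpos i1]
      · simp only
        linear_combination (A ^ 2 - 4 * m * C ^ 2) * i3 + (t ^ 2) * hAC
      · simp only
        have : A * (s j).2 + C * (s j).1 - y0 = (A - 1) * (s j).2 + C * (s j).1 + ((s j).2 - y0) := by ring
        rw [this]
        exact dvd_add (dvd_add (htA.mul_right _) (htC.mul_right _)) i4
      · simp only
        have hG : 0 ≤ A + 4 * m * C + C := by positivity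
        calc A * (s j).1 + 4 * m * C * (s j).2 + (A * (s j).2 + C * (s j).1)
            ≤ (A + 4 * m * C + C) * ((s j).1 + (s j).2) := by
              have e1 : 0 ≤ m * C * (s j).1 := by positivity
              have e2 : 0 ≤ C * (s j).2 := by positivity
              nlinarith
          _ ≤ (A + 4 * m * C + C) * ((A + 4 * m * C + C) ^ j * (x0 + y0)) := mul_le_mul_of_nonneg_left i5 hG
          _ = _ := by ring
  refine ⟨fun j => (s j).1, fun j => (s j).2, A + 4 * m * C + C, by nlinarith, fun j => ?_⟩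
  obtain ⟨i1, i2, i3, i4, i5⟩ := hbase j
  have hy : 0 ≤ (s j).2 := le_trans (by positivity) i2
  refine ⟨i1, i2, i3, i4, ?_, i5⟩
  simp only [hs]
  have := mul_le_mul_of_nonneg_right hAN hy
  have := mul_pos hCpos i1
  linarith

/-- The seven arguments. -/
def arg (d y r r' z : ℤ) : Fin 7 → ℤ :=
  ![d * y, -(d * y), d * y - d, -(d * y) - d, d * y ^ 2 + r - d, d * y ^ 2 + r' - d, d * y ^ 2 + z]

/-- Their degrees in `y`. -/
def ex : Fin 7 → ℕ := ![1, 1, 1, 1, 2, 2, 4]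

lemma x_le {t m x y : ℤ} (hm : 1 ≤ m) (hy : 0 ≤ y) (hxy : x ^ 2 = t ^ 2 + 4 * m * y ^ 2) :
    x ≤ |t| + 2 * m * y := by
  have h1 : 0 ≤ |t| + 2 * m * y := by positivity
  apply le_of_sq_le_sq _ h1
  have h3 : m * y ^ 2 ≤ m ^ 2 * y ^ 2 := mul_le_mul_of_nonneg_right (by nlinarith) (sq_nonneg y)
  have h4 : 0 ≤ |t| * m * y := by positivity
  have h5 : t ^ 2 = |t| ^ 2 := (sq_abs t).symm
  rw [hxy, h5]
  linarith

lemma lin_bounds {D K y w : ℤ} (hK : 3 ≤ K) (hD : 1 ≤ D) (hDK : D ≤ K) (hy : 12 ≤ y) (hw1 : y - 1 ≤ w) (hw2 : w ≤ y + 1) :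
    y ≤ 8 * K * (D * w) ∧ D * w ≤ 3 * K ^ 2 * y := by
  have hw : 0 ≤ w := by linarith
  have f1 : w ≤ D * w := by nlinarith
  have f2 : D * w ≤ K * w := mul_le_mul_of_nonneg_right hDK hw
  have f3 : K * w ≤ K * (y + 1) := mul_le_mul_of_nonneg_left hw2 (by linarith)
  have f4 : K * y ≤ K ^ 2 * y := mul_le_mul_of_nonneg_right (by nlinarith) (by linarith)
  have f5 : K ≤ K * y := by nlinarith
  have f6 : D * w ≤ K * (D * w) := by nlinarith
  constructor <;> nlinarith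

lemma quad_bounds {d D T K m y w : ℤ} (hDd : D = |d|) (hD : 1 ≤ D) (hT : 1 ≤ T) (hm : 1 ≤ m) (hK : K = D + T + m)
    (hy : 4 * K ≤ y) (hw : |w| ≤ T + m * y) :
    y ^ 2 ≤ 8 * K * |d * y ^ 2 + w - d| ∧ |d * y ^ 2 + w - d| ≤ 3 * K ^ 2 * y ^ 2 := by
  have hy12 : 12 ≤ y := by linarith
  have hy1 : 0 ≤ y ^ 2 - 1 := by nlinarith
  have e1 : |d * y ^ 2 - d| = D * (y ^ 2 - 1) := by
    rw [show d * y ^ 2 - d = d * (y ^ 2 - 1) by ring, abs_mul, abs_of_nonneg hy1, hDd]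
  have e2 : D * (y ^ 2 - 1) - |w| ≤ |d * y ^ 2 + w - d| := by
    rw [← e1]
    have := abs_sub_abs_le_abs_sub (d * y ^ 2 - d) (-w)
    rw [abs_neg] at this
    calc _ ≤ _ := this
      _ = _ := by congr 1; ring
  have e3 : |d * y ^ 2 + w - d| ≤ D * (y ^ 2 - 1) + |w| := by
    rw [← e1]
    calc |d * y ^ 2 + w - d| = |(d * y ^ 2 - d) + w| := by congr 1; ring
      _ ≤ _ := abs_add_le _ _
  have e4 : (y ^ 2 - 1) ≤ D * (y ^ 2 - 1) := by
    have := mul_le_mul_of_nonneg_right hD hy1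
    linarith
  have e5 : D * (y ^ 2 - 1) ≤ K * (y ^ 2 - 1) := mul_le_mul_of_nonneg_right (by linarith) hy1
  have e6 : 4 * K * y ≤ y ^ 2 := by
    have := mul_le_mul_of_nonneg_right hy (show (0 : ℤ) ≤ y by linarith)
    linarith
  have e7 : m * y ≤ K * y := mul_le_mul_of_nonneg_right (by linarith) (by linarith)
  have e8 : K * 12 ≤ K * y := mul_le_mul_of_nonneg_left hy12 (by linarith)
  have hKK : K ≤ K ^ 2 := by nlinarith
  have e11 : K * y ^ 2 ≤ K ^ 2 * y ^ 2 := mul_le_mul_of_nonneg_right hKK (sq_nonneg y)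
  generalize |d * y ^ 2 + w - d| = W at *
  have e9 : y ^ 2 ≤ 2 * W := by linarith
  constructor
  · have : 2 * W ≤ 8 * K * W := mul_le_mul_of_nonneg_right (by linarith) (by nlinarith)
    linarith
  · have e12 : K * (y ^ 2 - 1) = K * y ^ 2 - K := by ring
    have e13 : K * y ≤ K * y ^ 2 := mul_le_mul_of_nonneg_left (by nlinarith) (by linarith)
    linarith

lemma quart_bounds {d D T K m y z : ℤ} (hDd : D = |d|) (hD : 1 ≤ D) (hT : 1 ≤ T) (hm : 1 ≤ m) (hK : K = D + T + m)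
    (hy : 4 * K ≤ y) (hTz : T * |z| = (y ^ 2 - 1) * (D ^ 2 * y ^ 2 - m)) :
    y ^ 4 ≤ 8 * K * |d * y ^ 2 + z| ∧ |d * y ^ 2 + z| ≤ 3 * K ^ 2 * y ^ 4 := by
  have hy12 : 12 ≤ y := by linarith
  have hy2 : 144 ≤ y ^ 2 := by nlinarith
  have e1 : D * y ^ 2 = |d * y ^ 2| := by rw [abs_mul, abs_of_nonneg (sq_nonneg y), hDd]
  have e2 : |z| - D * y ^ 2 ≤ |d * y ^ 2 + z| := by
    rw [e1]
    have := abs_sub_abs_le_abs_sub z (-(d * y ^ 2))
    rw [abs_neg] at this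
    calc _ ≤ _ := this
      _ = _ := by congr 1; ring
  have e3 : |d * y ^ 2 + z| ≤ D * y ^ 2 + |z| := by
    rw [e1]
    exact abs_add_le _ _
  have hz0 : 0 ≤ |z| := abs_nonneg z
  have hK1 : 1 ≤ K := by linarith
  have hyy : 16 * K ^ 2 ≤ y ^ 2 := by
    have := pow_le_pow_left₀ (show (0 : ℤ) ≤ 4 * K by linarith) hy 2
    linarith
  have hw2 : 2 * m ≤ y ^ 2 := by nlinarith
  have hDD : D ^ 2 ≤ K ^ 2 := pow_le_pow_left₀ (by linarith) (by linarith) 2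
  have hD2 : 1 ≤ D ^ 2 := by nlinarith
  have hDy : y ^ 2 ≤ D ^ 2 * y ^ 2 := by
    have := mul_le_mul_of_nonneg_right hD2 (sq_nonneg y)
    linarith
  have h5 : y ^ 4 ≤ 4 * (T * |z|) := by
    rw [hTz]
    have f1 : y ^ 2 ≤ 2 * (y ^ 2 - 1) := by linarith
    have f2 : y ^ 2 ≤ 2 * (D ^ 2 * y ^ 2 - m) := by linarith
    have := mul_le_mul f1 f2 (sq_nonneg y) (by linarith)
    calc y ^ 4 = y ^ 2 * y ^ 2 := by ring
      _ ≤ _ := this
      _ = _ := by ring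
  have h6 : T * |z| ≤ K ^ 2 * y ^ 4 := by
    rw [hTz]
    have f1 : D ^ 2 * y ^ 2 ≤ K ^ 2 * y ^ 2 := mul_le_mul_of_nonneg_right hDD (sq_nonneg y)
    calc (y ^ 2 - 1) * (D ^ 2 * y ^ 2 - m) ≤ y ^ 2 * (K ^ 2 * y ^ 2) :=
          mul_le_mul (by linarith) (by linarith) (by linarith) (sq_nonneg y)
      _ = _ := by ring
  have h7 : T * |z| ≤ K * |z| := mul_le_mul_of_nonneg_right (by linarith) hz0
  have h8 : |z| ≤ T * |z| := by
    have := mul_le_mul_of_nonneg_right hT hz0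
    linarith
  have h9 : 16 * K ^ 2 * y ^ 2 ≤ y ^ 4 := by
    calc 16 * K ^ 2 * y ^ 2 ≤ y ^ 2 * y ^ 2 := mul_le_mul_of_nonneg_right hyy (sq_nonneg y)
      _ = _ := by ring
  have h10 : K * (D * y ^ 2) ≤ K ^ 2 * y ^ 2 := by
    have : D * y ^ 2 ≤ K * y ^ 2 := mul_le_mul_of_nonneg_right (by linarith) (sq_nonneg y)
    calc K * (D * y ^ 2) ≤ K * (K * y ^ 2) := mul_le_mul_of_nonneg_left this (by linarith)
      _ = _ := by ring
  have h13 : 0 ≤ K ^ 2 * y ^ 4 := by positivity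
  have h14 : 0 ≤ K ^ 2 * y ^ 2 := by positivity
  constructor
  · have h11 : 8 * K * (|z| - D * y ^ 2) ≤ 8 * K * |d * y ^ 2 + z| :=
      mul_le_mul_of_nonneg_left e2 (by linarith)
    have h15 : 8 * K * (|z| - D * y ^ 2) = 8 * (K * |z|) - 8 * (K * (D * y ^ 2)) := by ring
    linarith
  · have h16 : D * y ^ 2 ≤ K ^ 2 * y ^ 2 := mul_le_mul_of_nonneg_right (by nlinarith) (sq_nonneg y)
    have h17 : y ^ 4 ≤ K ^ 2 * y ^ 4 := by
      have := mul_le_mul_of_nonneg_right (show (1 : ℤ) ≤ K ^ 2 by nlinarith) (show (0 : ℤ) ≤ y ^ 4 by positivity)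
      linarith
    linarith

lemma bounds {d t m x y r r' z K : ℤ} (hK : K = |d| + |t| + m) (hd : d ≠ 0) (ht : t ≠ 0) (hm : 0 < m) (hx : 0 < x)
    (hy : 4 * K ≤ y) (hxy : x ^ 2 = t ^ 2 + 4 * m * y ^ 2) (hr : 2 * r = t + x) (hr' : r' = t - r)
    (hz : t * z = (y ^ 2 - 1) * (d ^ 2 * y ^ 2 - m)) (i : Fin 7) :
    y ^ (ex i) ≤ 8 * K * |arg d y r r' z i| ∧ |arg d y r r' z i| ≤ 3 * K ^ 2 * y ^ (ex i) := by
  have hD1 : 1 ≤ |d| := Int.one_le_abs hd
  have hT1 : 1 ≤ |t| := Int.one_le_abs ht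
  have hm1 : 1 ≤ m := hm
  have hK3 : 3 ≤ K := by linarith
  have hy12 : 12 ≤ y := by linarith
  have hxle := x_le hm1 (by linarith) hxy
  have hrabs : ∀ w : ℤ, (2 * w = t + x ∨ 2 * w = t - x) → |w| ≤ |t| + m * y := by
    intro w hw
    have h1 : |2 * w| ≤ |t| + x := by
      rcases hw with hw | hw
      · rw [hw]
        calc |t + x| ≤ |t| + |x| := abs_add_le _ _
          _ = |t| + x := by rw [abs_of_pos hx]
      · rw [hw]
        calc |t - x| ≤ |t| + |x| := abs_sub _ _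
          _ = |t| + x := by rw [abs_of_pos hx]
    rw [abs_mul, show |(2 : ℤ)| = 2 from rfl] at h1
    linarith
  have hrb : |r| ≤ |t| + m * y := hrabs r (Or.inl hr)
  have hrb' : |r'| ≤ |t| + m * y := hrabs r' (Or.inr (by rw [hr']; linarith))
  have hTz : |t| * |z| = (y ^ 2 - 1) * (|d| ^ 2 * y ^ 2 - m) := by
    have h1 : 0 ≤ y ^ 2 - 1 := by nlinarith
    have h2 : 1 ≤ |d| ^ 2 := by nlinarith
    have h3 : y ^ 2 ≤ |d| ^ 2 * y ^ 2 := by
      have := mul_le_mul_of_nonneg_right h2 (sq_nonneg y)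
      linarith
    have h4 : m ≤ y ^ 2 := by nlinarith
    rw [← abs_mul, hz, sq_abs, abs_of_nonneg]
    apply mul_nonneg h1
    rw [sq_abs] at h3
    linarith
  have hDK : |d| ≤ K := by linarith
  fin_cases i
  · show y ^ 1 ≤ 8 * K * |d * y| ∧ |d * y| ≤ 3 * K ^ 2 * y ^ 1
    rw [abs_mul, abs_of_pos (show 0 < y by linarith), pow_one]
    exact lin_bounds hK3 hD1 hDK hy12 (by linarith) (by linarith)
  · show y ^ 1 ≤ 8 * K * |-(d * y)| ∧ |-(d * y)| ≤ 3 * K ^ 2 * y ^ 1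
    rw [abs_neg, abs_mul, abs_of_pos (show 0 < y by linarith), pow_one]
    exact lin_bounds hK3 hD1 hDK hy12 (by linarith) (by linarith)
  · show y ^ 1 ≤ 8 * K * |d * y - d| ∧ |d * y - d| ≤ 3 * K ^ 2 * y ^ 1
    rw [show d * y - d = d * (y - 1) by ring, abs_mul, abs_of_nonneg (show (0 : ℤ) ≤ y - 1 by linarith), pow_one]
    exact lin_bounds hK3 hD1 hDK hy12 (by linarith) (by linarith)
  · show y ^ 1 ≤ 8 * K * |-(d * y) - d| ∧ |-(d * y) - d| ≤ 3 * K ^ 2 * y ^ 1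
    rw [show -(d * y) - d = -(d * (y + 1)) by ring, abs_neg, abs_mul, abs_of_nonneg (show (0 : ℤ) ≤ y + 1 by linarith), pow_one]
    exact lin_bounds hK3 hD1 hDK hy12 (by linarith) (by linarith)
  · exact quad_bounds rfl hD1 hT1 hm1 hK hy hrb
  · exact quad_bounds rfl hD1 hT1 hm1 hK hy hrb'
  · exact quart_bounds rfl hD1 hT1 hm1 hK hy hTz

lemma root_bound {a b c n : ℤ} (h : n ^ 3 + a * n ^ 2 + b * n + c = 0) : |n| ≤ |a| + |b| + |c| := by
  rcases eq_or_ne n 0 with rfl | hn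
  · simp only [abs_zero]
    positivity
  have hn1 : 1 ≤ |n| := Int.one_le_abs hn
  have hn2 : |n| ≤ |n| ^ 2 := by nlinarith
  have h1 : |n| ^ 3 ≤ |a| * |n| ^ 2 + |b| * |n| + |c| := by
    have e : n ^ 3 = -(a * n ^ 2 + b * n + c) := by linarith
    calc |n| ^ 3 = |n ^ 3| := (abs_pow n 3).symm
      _ = |a * n ^ 2 + b * n + c| := by rw [e, abs_neg]
      _ ≤ |a * n ^ 2 + b * n| + |c| := abs_add_le _ _
      _ ≤ |a * n ^ 2| + |b * n| + |c| := by linarith [abs_add_le (a * n ^ 2) (b * n)]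
      _ = _ := by rw [abs_mul, abs_mul, abs_pow]
  have h2 : |b| * |n| ≤ |b| * |n| ^ 2 := mul_le_mul_of_nonneg_left hn2 (abs_nonneg b)
  have h3 : |c| ≤ |c| * |n| ^ 2 := by nlinarith [abs_nonneg c]
  have h4 : |n| ^ 2 * |n| ≤ |n| ^ 2 * (|a| + |b| + |c|) := by
    have e1 : |n| ^ 2 * |n| = |n| ^ 3 := by ring
    rw [e1]
    linarith
  exact le_of_mul_le_mul_left h4 (by positivity)

lemma finite_bdd (X : ℝ) (S : Set ℤ) : ({n : ℤ | |(n : ℝ)| ≤ X ∧ n ∈ S}).Finite := by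
  apply (Set.finite_Icc (-⌈|X|⌉) ⌈|X|⌉).subset
  rintro n ⟨hn, -⟩
  have h1 : |(n : ℝ)| ≤ |X| := hn.trans (le_abs_self X)
  have h2 := Int.le_ceil |X|
  have h3 := abs_le.1 (h1.trans h2)
  constructor
  · have : ((-⌈|X|⌉ : ℤ) : ℝ) ≤ n := by push_cast; exact h3.1
    exact_mod_cast this
  · exact_mod_cast h3.2

lemma count (S : Set ℤ) (a : Fin 7 → ℕ → ℤ) (J0 : ℕ) (C G : ℝ) (hC : 1 ≤ C) (hG : 1 < G)
    (hinj : ∀ i j j', J0 ≤ j → j < j' → a i j ≠ a i j')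
    (hS : ∀ j, J0 ≤ j → ∃ i, a i j ∈ S)
    (hb : ∀ i j, J0 ≤ j → |(a i j : ℝ)| ≤ C * G ^ j) :
    ∃ δ : ℝ, 0 < δ ∧ ∃ X0 : ℝ, ∀ X : ℝ, X0 ≤ X →
      δ * Real.log X ≤ (({n : ℤ | |(n : ℝ)| ≤ X ∧ n ∈ S}.ncard : ℕ) : ℝ) := by
  classical
  have hL : 0 < Real.log G := Real.log_pos hG
  have hlC : 0 ≤ Real.log C := Real.log_nonneg hC
  set L := Real.log G with hLdef
  refine ⟨1 / (14 * L), by positivity, Real.exp (2 * Real.log C + 2 * L * (1 + J0)), fun X hX => ?_⟩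
  have hX0 : 0 < X := lt_of_lt_of_le (Real.exp_pos _) hX
  have hlX : 2 * Real.log C + 2 * L * (1 + J0) ≤ Real.log X := by
    rw [Real.le_log_iff_exp_le hX0]
    exact hX
  set T : Set ℤ := {n : ℤ | |(n : ℝ)| ≤ X ∧ n ∈ S} with hT
  have hTf : T.Finite := finite_bdd X S
  set k : ℕ := ⌊(Real.log X - Real.log C) / L⌋₊ with hk
  have hkle : (k : ℝ) ≤ (Real.log X - Real.log C) / L :=
    Nat.floor_le (div_nonneg (by nlinarith [show (0 : ℝ) ≤ J0 from Nat.cast_nonneg _]) hL.le)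
  have hklt : (Real.log X - Real.log C) / L < k + 1 := Nat.lt_floor_add_one _
  -- for j in [J0, k) the bound holds
  have hmem : ∀ j, J0 ≤ j → j ≤ k → ∃ i, a i j ∈ T := by
    intro j hj hjk
    obtain ⟨i, hi⟩ := hS j hj
    refine ⟨i, ?_, hi⟩
    calc |(a i j : ℝ)| ≤ C * G ^ j := hb i j hj
      _ = Real.exp (Real.log C + j * L) := by
        rw [Real.exp_add, Real.exp_log (by linarith), Real.exp_nat_mul, hLdef, Real.exp_log (by linarith)]
      _ ≤ Real.exp (Real.log X) := by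
        apply Real.exp_le_exp.2
        have h1 : (j : ℝ) ≤ (Real.log X - Real.log C) / L := le_trans (by exact_mod_cast hjk) hkle
        rw [le_div_iff₀ hL] at h1
        linarith
      _ = X := Real.exp_log hX0
  choose! i hi using hmem
  have hcard : (Finset.Ico J0 k).card ≤ ((Finset.univ : Finset (Fin 7)) ×ˢ hTf.toFinset).card := by
    apply Finset.card_le_card_of_injOn (fun j => (i j, a (i j) j))
    · intro j hj
      rw [Finset.mem_coe, Finset.mem_Ico] at hj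
      simp only [Finset.coe_product, Finset.coe_univ, Set.mem_prod, Set.mem_univ, true_and, Set.Finite.coe_toFinset]
      exact hi j hj.1 hj.2.le
    · intro j hj j' hj' h
      rw [Finset.mem_coe, Finset.mem_Ico] at hj hj'
      simp only [Prod.mk.injEq] at h
      obtain ⟨h1, h2⟩ := h
      rw [h1] at h2
      rcases lt_trichotomy j j' with h3 | h3 | h3
      · exact absurd h2 (hinj _ _ _ hj.1 h3)
      · exact h3
      · exact absurd h2.symm (hinj _ _ _ hj'.1 h3)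
  rw [Nat.card_Ico, Finset.card_product, Finset.card_univ, Fintype.card_fin, ← Set.ncard_eq_toFinset_card T hTf] at hcard
  have h7 : (k : ℝ) - J0 ≤ 7 * (T.ncard : ℝ) := by
    have h8 : k ≤ 7 * T.ncard + J0 := by omega
    have h9 : (k : ℝ) ≤ 7 * (T.ncard : ℝ) + J0 := by exact_mod_cast h8
    linarith
  have h10 : (Real.log X - Real.log C) < (k + 1) * L := by
    rwa [div_lt_iff₀ hL] at hklt
  rw [div_mul_eq_mul_div, one_mul, div_le_iff₀ (by positivity)]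
  have h11 : L * (k - J0) ≤ L * (7 * (T.ncard : ℝ)) := mul_le_mul_of_nonneg_left h7 hL.le
  nlinarith

/-- One sign, centre at the origin. -/
lemma one_sign {g : ℤ → ℤ} (hg : ∀ a, g a = 1 ∨ g a = -1) (hgm : ∀ a b, a ≠ 0 → b ≠ 0 → g (a * b) = g a * g b)
    (d t m x0 y0 : ℤ) (hd : d ≠ 0) (ht : t ≠ 0) (hm : 0 < m) (hns : ¬ IsSquare m)
    (hxy : x0 ^ 2 = t ^ 2 + 4 * m * y0 ^ 2) (hdiv : t ∣ (y0 ^ 2 - 1) * (d ^ 2 * y0 ^ 2 - m)) :
    ∃ δ : ℝ, 0 < δ ∧ ∃ X0 : ℝ, ∀ X : ℝ, X0 ≤ X →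
      δ * Real.log X ≤ (({n : ℤ | |(n : ℝ)| ≤ X ∧ n ∈ {n : ℤ | n ^ 3 + d * n ^ 2 + (d * t - m) * n - d * m ≠ 0 ∧
        g (n ^ 3 + d * n ^ 2 + (d * t - m) * n - d * m) = g t}}.ncard : ℕ) : ℝ) := by
  wlog hx0 : 0 < x0 generalizing x0
  · have hne : x0 ≠ 0 := by
      rintro rfl
      have : 0 < t ^ 2 := by positivity
      nlinarith [mul_nonneg hm.le (sq_nonneg y0)]
    exact this (-x0) (by rw [neg_sq]; exact hxy) (by omega)
  wlog hy0 : 0 ≤ y0 generalizing y0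
  · exact this (-y0) (by rw [neg_sq]; exact hdiv) (by rw [neg_sq]; exact hxy) (by omega)
  set K : ℤ := |d| + |t| + m with hK
  have hK3 : 3 ≤ K := by
    have := Int.one_le_abs hd
    have := Int.one_le_abs ht
    omega
  obtain ⟨x, y, G, hG1, hj⟩ := orbit ht hm hns hx0 hy0 hxy (N := 24 * K ^ 3 + 1) (by positivity)
  -- the bound for zeros
  set R : ℤ := |d| + |d * t - m| + |-(d * m)| with hR
  have hR0 : 0 ≤ R := by positivity
  have hpar : ∀ j, ∃ r : ℤ, 2 * r = t + x j := by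
    intro j
    have h1 := (hj j).2.2.1
    have h2 : (x j - t) * (x j + t) = 4 * m * (y j) ^ 2 := by linear_combination h1
    rcases Int.even_or_odd (x j - t) with h3 | h3
    · obtain ⟨e, he⟩ := h3
      exact ⟨e + t, by linarith⟩
    · exfalso
      have h4 : Odd (x j + t) := by
        obtain ⟨e, he⟩ := h3
        exact ⟨e + t, by linarith⟩
      have h5 : Odd ((x j - t) * (x j + t)) := h3.mul h4
      rw [h2] at h5
      obtain ⟨e, he⟩ := h5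
      have h6 : 4 * m * (y j) ^ 2 = 2 * (2 * (m * (y j) ^ 2)) := by ring
      omega
  choose r hr using hpar
  have hzz : ∀ j, ∃ z : ℤ, t * z = ((y j) ^ 2 - 1) * (d ^ 2 * (y j) ^ 2 - m) := by
    intro j
    have h1 := (hj j).2.2.2.1
    have h2 : ((y j) ^ 2 - 1) * (d ^ 2 * (y j) ^ 2 - m) = (y0 ^ 2 - 1) * (d ^ 2 * y0 ^ 2 - m) +
        (y j - y0) * ((y j + y0) * (d ^ 2 * ((y j) ^ 2 + y0 ^ 2) - (m + d ^ 2))) := by ring
    have h3 : t ∣ ((y j) ^ 2 - 1) * (d ^ 2 * (y j) ^ 2 - m) := by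
      rw [h2]
      exact dvd_add hdiv (h1.mul_right _)
    obtain ⟨z, hz⟩ := h3
    exact ⟨z, hz.symm⟩
  choose z hz using hzz
  have hx0' : ∀ j, 0 < x j := fun j => (hj j).1
  have hrr : ∀ j, r j * (t - r j) = -m * (y j) ^ 2 := by
    intro j
    have h1 := (hj j).2.2.1
    have h2 := hr j
    have h3 : x j = 2 * r j - t := by linarith
    rw [h3] at h1
    nlinarith
  have hmono : ∀ j j', j < j' → (24 * K ^ 3 + 1) * y j ≤ y j' := by
    intro j j' hjj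
    obtain ⟨k, rfl⟩ : ∃ k, j' = j + 1 + k := ⟨j' - (j + 1), by omega⟩
    clear hjj
    induction k with
    | zero => exact (hj j).2.2.2.2.1
    | succ k ih =>
      have h1 := (hj (j + 1 + k)).2.2.2.2.1
      have h2 : 0 ≤ y (j + 1 + k) := le_trans (by positivity) (hj _).2.1
      have h3 : (1 : ℤ) ≤ 24 * K ^ 3 + 1 := by
        have : 0 ≤ K ^ 3 := by positivity
        linarith
      calc (24 * K ^ 3 + 1) * y j ≤ y (j + 1 + k) := ih
        _ ≤ (24 * K ^ 3 + 1) * y (j + 1 + k) := by nlinarith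
        _ ≤ _ := h1
  set J0 : ℕ := (4 * K + 8 * K * (R + 1)).toNat with hJ0
  have hJ : ∀ j, J0 ≤ j → 4 * K ≤ y j ∧ 8 * K * (R + 1) ≤ y j ∧ 1 ≤ y j := by
    intro j hjj
    have h1 : 4 * K + 8 * K * (R + 1) ≤ (j : ℤ) := by
      have h2 := Int.self_le_toNat (4 * K + 8 * K * (R + 1))
      have h3 : ((J0 : ℕ) : ℤ) ≤ (j : ℤ) := by exact_mod_cast hjj
      linarith
    have h4 := (hj j).2.1
    have h5 : 0 ≤ 8 * K * (R + 1) := by positivity
    refine ⟨by linarith, by linarith, by linarith⟩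
  have hbd : ∀ i j, J0 ≤ j → (y j) ^ (ex i) ≤ 8 * K * |arg d (y j) (r j) (t - r j) (z j) i| ∧
      |arg d (y j) (r j) (t - r j) (z j) i| ≤ 3 * K ^ 2 * (y j) ^ (ex i) :=
    fun i j hjj => bounds hK hd ht hm (hx0' j) (hJ j hjj).1 (hj j).2.2.1 (hr j) rfl (hz j) i
  have hex : ∀ i, 1 ≤ ex i ∧ ex i ≤ 4 := by decide
  have hbig : ∀ i j, J0 ≤ j → R < |arg d (y j) (r j) (t - r j) (z j) i| := by
    intro i j hjj
    have h1 := (hbd i j hjj).1
    obtain ⟨-, h2, h3⟩ := hJ j hjj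
    have h4 : y j ≤ (y j) ^ (ex i) := by
      calc y j = (y j) ^ 1 := (pow_one _).symm
        _ ≤ _ := pow_le_pow_right₀ h3 (hex i).1
    have h5 : 8 * K * (R + 1) ≤ 8 * K * |arg d (y j) (r j) (t - r j) (z j) i| := by linarith
    have h6 := le_of_mul_le_mul_left h5 (by linarith)
    linarith
  have hnz : ∀ n : ℤ, R < |n| → n ^ 3 + d * n ^ 2 + (d * t - m) * n - d * m ≠ 0 := by
    intro n hn h0
    have := root_bound (a := d) (b := d * t - m) (c := -(d * m)) (n := n) (by linarith)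
    linarith
  have hGR : (1 : ℝ) < ((G ^ 4 : ℤ) : ℝ) := by
    have : (1 : ℤ) < G ^ 4 := by nlinarith [pow_le_pow_left₀ (show (0:ℤ) ≤ 2 by norm_num) (show (2:ℤ) ≤ G by linarith) 4]
    exact_mod_cast this
  set C : ℤ := 3 * K ^ 2 * (x0 + y0) ^ 4 with hCdef
  have hC1 : (1 : ℝ) ≤ (C : ℝ) := by
    have : (1 : ℤ) ≤ C := by
      have h1 : 0 < C := by positivity
      linarith
    exact_mod_cast this
  refine count _ (fun i j => arg d (y j) (r j) (t - r j) (z j) i) J0 (C : ℝ) ((G ^ 4 : ℤ) : ℝ) hC1 hGR ?_ ?_ ?_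
  · intro i j j' hjj hlt heq
    have h1 := (hbd i j hjj).2
    have h2 := (hbd i j' (hjj.trans hlt.le)).1
    rw [← heq] at h2
    have h3 := hmono j j' hlt
    have h4 := (hJ j hjj).2.2
    have h5 : ((24 * K ^ 3 + 1) * y j) ^ (ex i) ≤ (y j') ^ (ex i) :=
      pow_le_pow_left₀ (by positivity) h3 _
    have h6 : (24 * K ^ 3 + 1) * (y j) ^ (ex i) ≤ ((24 * K ^ 3 + 1) * y j) ^ (ex i) := by
      rw [mul_pow]
      apply mul_le_mul_of_nonneg_right _ (by positivity)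
      calc 24 * K ^ 3 + 1 = (24 * K ^ 3 + 1) ^ 1 := (pow_one _).symm
        _ ≤ _ := pow_le_pow_right₀ (by
          have : 0 ≤ K ^ 3 := by positivity
          linarith) (hex i).1
    have h7 : 8 * K * |arg d (y j) (r j) (t - r j) (z j) i| ≤ 8 * K * (3 * K ^ 2 * (y j) ^ (ex i)) :=
      mul_le_mul_of_nonneg_left h1 (by linarith)
    have h8 : 0 < (y j) ^ (ex i) := by positivity
    have h9 : 8 * K * (3 * K ^ 2 * (y j) ^ (ex i)) = 24 * K ^ 3 * (y j) ^ (ex i) := by ring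
    have h10 : (24 * K ^ 3 + 1) * (y j) ^ (ex i) = 24 * K ^ 3 * (y j) ^ (ex i) + (y j) ^ (ex i) := by ring
    linarith
  · intro j hjj
    have hn := fun i => hnz _ (hbig i j hjj)
    have hs := seven d t m (y j) (r j) (t - r j) (z j) (by ring) (hrr j) (hz j)
      (fun n => n ^ 3 + d * n ^ 2 + (d * t - m) * n - d * m) (fun n => rfl)
    have h7 := sign_lemma hg hgm ht (hn 0) (hn 1) (hn 4) (hn 5) (hn 2) (hn 3) (hn 6) hs
    rcases h7 with h | h | h | h | h | h | h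
    · exact ⟨0, hn 0, h⟩
    · exact ⟨1, hn 1, h⟩
    · exact ⟨4, hn 4, h⟩
    · exact ⟨5, hn 5, h⟩
    · exact ⟨2, hn 2, h⟩
    · exact ⟨3, hn 3, h⟩
    · exact ⟨6, hn 6, h⟩
  · intro i j hjj
    have h1 := (hbd i j hjj).2
    have h2 := (hj j).2.2.2.2.2
    have h3 := (hJ j hjj).2.2
    have h4 : (y j) ^ (ex i) ≤ (y j) ^ 4 := pow_le_pow_right₀ h3 (hex i).2
    have h5 : (y j) ^ 4 ≤ (G ^ j * (x0 + y0)) ^ 4 :=
      pow_le_pow_left₀ (by linarith) (by linarith [hx0' j]) 4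
    have h6 : |arg d (y j) (r j) (t - r j) (z j) i| ≤ C * (G ^ 4) ^ j := by
      calc _ ≤ 3 * K ^ 2 * (y j) ^ (ex i) := h1
        _ ≤ 3 * K ^ 2 * (G ^ j * (x0 + y0)) ^ 4 := mul_le_mul_of_nonneg_left (h4.trans h5) (by positivity)
        _ = _ := by rw [hCdef]; ring
    have h7 : ((|arg d (y j) (r j) (t - r j) (z j) i| : ℤ) : ℝ) ≤ ((C * (G ^ 4) ^ j : ℤ) : ℝ) := by exact_mod_cast h6
    push_cast at h7 ⊢
    exact h7

lemma adm_count {g : ℤ → ℤ} (hg : ∀ a, g a = 1 ∨ g a = -1) (hgm : ∀ a b, a ≠ 0 → b ≠ 0 → g (a * b) = g a * g b)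
    {a b c t : ℤ} (h : Admissible a b c t) :
    ∃ δ : ℝ, 0 < δ ∧ ∃ X0 : ℝ, ∀ X : ℝ, X0 ≤ X →
      δ * Real.log X ≤ (({n : ℤ | |(n : ℝ)| ≤ X ∧ n ∈ {n : ℤ | n ^ 3 + a * n ^ 2 + b * n + c ≠ 0 ∧
        g (n ^ 3 + a * n ^ 2 + b * n + c) = g t}}.ncard : ℕ) : ℝ) := by
  obtain ⟨ht, u, d, m, x, y, hd, hm, hns, hsh, hxy, hdiv⟩ := h
  have hsh' : ∀ n : ℤ, (n + u) ^ 3 + a * (n + u) ^ 2 + b * (n + u) + c = n ^ 3 + d * n ^ 2 + (d * t - m) * n - d * m := by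
    intro n
    rw [hsh]
    ring
  obtain ⟨δ, hδ, X0, hX⟩ := one_sign hg hgm d t m x y hd ht hm hns hxy hdiv
  refine ⟨δ / 2, by positivity, max (X0 + |(u : ℝ)|) (2 * |(u : ℝ)| + 4), fun X hXX => ?_⟩
  have hX1 : X0 + |(u : ℝ)| ≤ X := (le_max_left _ _).trans hXX
  have hX2 : 2 * |(u : ℝ)| + 4 ≤ X := (le_max_right _ _).trans hXX
  have hu : 0 ≤ |(u : ℝ)| := abs_nonneg _
  have h3 := hX (X - |(u : ℝ)|) (by linarith)
  have h4 : Real.log X / 2 ≤ Real.log (X - |(u : ℝ)|) := by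
    have e1 : Real.log (X / 2) ≤ Real.log (X - |(u : ℝ)|) := Real.log_le_log (by linarith) (by linarith)
    have e2 : Real.log (X / 2) = Real.log X - Real.log 2 := Real.log_div (by linarith) (by norm_num)
    have e3 : 2 * Real.log 2 ≤ Real.log X := by
      have : (2 : ℝ) * Real.log 2 = Real.log 4 := by
        rw [show (4 : ℝ) = 2 ^ (2 : ℕ) by norm_num, Real.log_pow]
        norm_num
      rw [this]
      exact Real.log_le_log (by norm_num) (by linarith)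
    linarith
  have h5 : ({n : ℤ | |(n : ℝ)| ≤ X - |(u : ℝ)| ∧ n ∈ {n : ℤ | n ^ 3 + d * n ^ 2 + (d * t - m) * n - d * m ≠ 0 ∧
        g (n ^ 3 + d * n ^ 2 + (d * t - m) * n - d * m) = g t}}).ncard ≤
      ({n : ℤ | |(n : ℝ)| ≤ X ∧ n ∈ {n : ℤ | n ^ 3 + a * n ^ 2 + b * n + c ≠ 0 ∧
        g (n ^ 3 + a * n ^ 2 + b * n + c) = g t}}).ncard := by
    refine Set.ncard_le_ncard_of_injOn (fun n => n + u) ?_ ?_ (finite_bdd _ _)
    · rintro n ⟨hn1, hn2, hn3⟩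
      refine ⟨?_, ?_, ?_⟩
      · push_cast
        calc |(n : ℝ) + u| ≤ |(n : ℝ)| + |(u : ℝ)| := abs_add_le _ _
          _ ≤ X := by linarith
      · rw [hsh']
        exact hn2
      · rw [hsh']
        exact hn3
    · intro n _ n' _ h
      simpa using h
  have h6 : ((({n : ℤ | |(n : ℝ)| ≤ X - |(u : ℝ)| ∧ n ∈ {n : ℤ | n ^ 3 + d * n ^ 2 + (d * t - m) * n - d * m ≠ 0 ∧
        g (n ^ 3 + d * n ^ 2 + (d * t - m) * n - d * m) = g t}}).ncard : ℕ) : ℝ) ≤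
      ((({n : ℤ | |(n : ℝ)| ≤ X ∧ n ∈ {n : ℤ | n ^ 3 + a * n ^ 2 + b * n + c ≠ 0 ∧
        g (n ^ 3 + a * n ^ 2 + b * n + c) = g t}}).ncard : ℕ) : ℝ) := by exact_mod_cast h5
  calc δ / 2 * Real.log X = δ * (Real.log X / 2) := by ring
    _ ≤ δ * Real.log (X - |(u : ℝ)|) := mul_le_mul_of_nonneg_left h4 hδ.le
    _ ≤ _ := h3
    _ ≤ _ := h6

/-- `sgn * lambda`. -/
noncomputable def ls (n : ℤ) : ℤ := if n < 0 then -l n else l n

lemma ls_one_or (a : ℤ) : ls a = 1 ∨ ls a = -1 := by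
  unfold ls
  rcases l_one_or a with h | h <;> rw [h] <;> split_ifs <;> simp

lemma ls_mul {a b : ℤ} (ha : a ≠ 0) (hb : b ≠ 0) : ls (a * b) = ls a * ls b := by
  unfold ls
  rw [l_mul ha hb]
  rcases lt_or_gt_of_ne ha with h | h <;> rcases lt_or_gt_of_ne hb with h' | h'
  · rw [if_neg (by nlinarith), if_pos h, if_pos h']
    ring
  · rw [if_pos (by nlinarith), if_pos h, if_neg (by linarith)]
    ring
  · rw [if_pos (by nlinarith), if_neg (by linarith), if_pos h']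
    ring
  · rw [if_neg (by nlinarith), if_neg (by linarith), if_neg (by linarith)]

/-- The sign of a cubic far out. -/
lemma far_sign {a b c n : ℤ} (hn : |a| + |b| + |c| + 1 < |n|) :
    (0 < n → 0 < n ^ 3 + a * n ^ 2 + b * n + c) ∧ (n < 0 → n ^ 3 + a * n ^ 2 + b * n + c < 0) := by
  have ha := abs_le.1 (le_refl |a|)
  have hb := abs_le.1 (le_refl |b|)
  have hc := abs_le.1 (le_refl |c|)
  have h1 : 1 < |n| := by
    have : 0 ≤ |a| + |b| + |c| := by positivity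
    linarith
  have hsq : |n| ≤ n ^ 2 := by rw [← sq_abs]; nlinarith
  have hn2 : 0 < n ^ 2 := by linarith
  have e1 : |a * n ^ 2| = |a| * n ^ 2 := by rw [abs_mul, abs_of_pos hn2]
  have e2 : |b * n| ≤ |b| * n ^ 2 := by
    rw [abs_mul]
    exact mul_le_mul_of_nonneg_left hsq (abs_nonneg b)
  have e3 : |c| ≤ |c| * n ^ 2 := by nlinarith [abs_nonneg c]
  have e4 : |a * n ^ 2 + b * n + c| ≤ (|a| + |b| + |c|) * n ^ 2 := by
    calc |a * n ^ 2 + b * n + c| ≤ |a * n ^ 2 + b * n| + |c| := abs_add_le _ _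
      _ ≤ |a * n ^ 2| + |b * n| + |c| := by linarith [abs_add_le (a * n ^ 2) (b * n)]
      _ ≤ |a| * n ^ 2 + |b| * n ^ 2 + |c| * n ^ 2 := by linarith
      _ = _ := by ring
  have e5 := abs_le.1 e4
  have e6 : (|a| + |b| + |c|) * n ^ 2 < |n| * n ^ 2 := mul_lt_mul_of_pos_right (by linarith) hn2
  constructor
  · intro hp
    rw [abs_of_pos hp] at e6
    have : n ^ 3 = n * n ^ 2 := by ring
    linarith
  · intro hp
    rw [abs_of_neg hp] at e6
    have : n ^ 3 = n * n ^ 2 := by ring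
    linarith

/-- Both signs on one side, from two admissible values. -/
lemma two_adm {a b c t1 t2 : ℤ} (h1 : Admissible a b c t1) (h2 : Admissible a b c t2) (hl : l t1 ≠ l t2) (hpos : 0 < t1 * t2) :
    ∃ δ : ℝ, 0 < δ ∧ ∃ X0 : ℝ, ∀ X : ℝ, X0 ≤ X →
      (∀ s : ℤ, (s = 1 ∨ s = -1) → δ * Real.log X ≤ (({n : ℤ | |(n : ℝ)| ≤ X ∧ n ∈ {n : ℤ | 0 < n ∧
        n ^ 3 + a * n ^ 2 + b * n + c ≠ 0 ∧ l (n ^ 3 + a * n ^ 2 + b * n + c) = s}}.ncard : ℕ) : ℝ)) ∨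
      (∀ s : ℤ, (s = 1 ∨ s = -1) → δ * Real.log X ≤ (({n : ℤ | |(n : ℝ)| ≤ X ∧ n ∈ {n : ℤ | n < 0 ∧
        n ^ 3 + a * n ^ 2 + b * n + c ≠ 0 ∧ l (n ^ 3 + a * n ^ 2 + b * n + c) = s}}.ncard : ℕ) : ℝ)) := by
  classical
  set f : ℤ → ℤ := fun n => n ^ 3 + a * n ^ 2 + b * n + c with hf
  set P : ℤ → Set ℤ := fun s => {n : ℤ | 0 < n ∧ f n ≠ 0 ∧ l (f n) = s} with hP
  set N : ℤ → Set ℤ := fun s => {n : ℤ | n < 0 ∧ f n ≠ 0 ∧ l (f n) = s} with hN
  let cnt : ℝ → Set ℤ → ℝ := fun X S => (({n : ℤ | |(n : ℝ)| ≤ X ∧ n ∈ S}.ncard : ℕ) : ℝ)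
  set R : ℤ := |a| + |b| + |c| + 1 with hR
  set B : Set ℤ := {n : ℤ | |n| ≤ R} with hB
  have hBf : B.Finite := (Set.finite_Icc (-R) R).subset (fun n hn => abs_le.1 hn)
  have hR0 : 0 ≤ R := by positivity
  -- union bound
  have hun : ∀ (X : ℝ) (S S1 S2 : Set ℤ), S ⊆ S1 ∪ S2 ∪ B → cnt X S ≤ cnt X S1 + cnt X S2 + B.ncard := by
    intro X S S1 S2 hS
    have e1 : {n : ℤ | |(n : ℝ)| ≤ X ∧ n ∈ S} ⊆ ({n : ℤ | |(n : ℝ)| ≤ X ∧ n ∈ S1} ∪ {n : ℤ | |(n : ℝ)| ≤ X ∧ n ∈ S2}) ∪ B := by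
      rintro n ⟨hn, hnS⟩
      rcases hS hnS with (h | h) | h
      · exact Or.inl (Or.inl ⟨hn, h⟩)
      · exact Or.inl (Or.inr ⟨hn, h⟩)
      · exact Or.inr h
    have e2 : {n : ℤ | |(n : ℝ)| ≤ X ∧ n ∈ S}.ncard ≤ ({n : ℤ | |(n : ℝ)| ≤ X ∧ n ∈ S1}.ncard + {n : ℤ | |(n : ℝ)| ≤ X ∧ n ∈ S2}.ncard) + B.ncard := by
      calc _ ≤ (({n : ℤ | |(n : ℝ)| ≤ X ∧ n ∈ S1} ∪ {n : ℤ | |(n : ℝ)| ≤ X ∧ n ∈ S2}) ∪ B).ncard :=
            Set.ncard_le_ncard e1 (((finite_bdd X S1).union (finite_bdd X S2)).union hBf)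
        _ ≤ _ := (Set.ncard_union_le _ _).trans (Nat.add_le_add_right (Set.ncard_union_le _ _) _)
    simp only [cnt]
    exact_mod_cast e2
  -- inclusions
  have i1 : ∀ s, {n : ℤ | f n ≠ 0 ∧ l (f n) = s} ⊆ P s ∪ N s ∪ B := by
    rintro s n ⟨hn, hs⟩
    rcases lt_trichotomy n 0 with h | h | h
    · exact Or.inl (Or.inr ⟨h, hn, hs⟩)
    · right
      show |n| ≤ R
      rw [h, abs_zero]
      exact hR0
    · exact Or.inl (Or.inl ⟨h, hn, hs⟩)
  have i2 : ∀ s, {n : ℤ | f n ≠ 0 ∧ ls (f n) = s} ⊆ P s ∪ N (-s) ∪ B := by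
    rintro s n ⟨hn, hs⟩
    by_cases hB' : |n| ≤ R
    · exact Or.inr hB'
    push Not at hB'
    obtain ⟨g1, g2⟩ := far_sign (a := a) (b := b) (c := c) (n := n) hB'
    rcases lt_trichotomy n 0 with h | h | h
    · left; right
      have e := g2 h
      refine ⟨h, hn, ?_⟩
      unfold ls at hs
      rw [if_pos e] at hs
      linarith
    · exfalso
      rw [h, abs_zero] at hB'
      linarith
    · left; left
      have e := g1 h
      refine ⟨h, hn, ?_⟩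
      unfold ls at hs
      rw [if_neg (by linarith)] at hs
      exact hs
  have hl12 : ∀ s : ℤ, (s = 1 ∨ s = -1) → l t1 = s ∨ l t2 = s := by
    intro s hs
    rcases l_one_or t1 with h | h <;> rcases l_one_or t2 with h' | h' <;> rcases hs with hs | hs <;> rw [h, h'] at hl ⊢ <;> simp_all
  have hls12 : ∀ s : ℤ, (s = 1 ∨ s = -1) → ls t1 = s ∨ ls t2 = s := by
    intro s hs
    unfold ls
    rcases lt_or_gt_of_ne h1.1 with k | k
    · have k2 : t2 < 0 := by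
        by_contra hcon
        push Not at hcon
        nlinarith
      rw [if_pos k, if_pos k2]
      rcases hl12 (-s) (by omega) with h | h
      · left; linarith
      · right; linarith
    · have k2 : 0 < t2 := by
        by_contra hcon
        push Not at hcon
        nlinarith
      rw [if_neg (by linarith), if_neg (by linarith)]
      exact hl12 s hs
  obtain ⟨δ1, hδ1, X1, hX1⟩ := adm_count l_one_or (fun _ _ => l_mul) h1
  obtain ⟨δ2, hδ2, X2, hX2⟩ := adm_count l_one_or (fun _ _ => l_mul) h2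
  obtain ⟨δ3, hδ3, X3, hX3⟩ := adm_count ls_one_or (fun _ _ => ls_mul) h1
  obtain ⟨δ4, hδ4, X4, hX4⟩ := adm_count ls_one_or (fun _ _ => ls_mul) h2
  set δ : ℝ := min (min δ1 δ2) (min δ3 δ4) with hδ
  have hδpos : 0 < δ := lt_min (lt_min hδ1 hδ2) (lt_min hδ3 hδ4)
  have hd1 : δ ≤ δ1 := (min_le_left _ _).trans (min_le_left _ _)
  have hd2 : δ ≤ δ2 := (min_le_left _ _).trans (min_le_right _ _)
  have hd3 : δ ≤ δ3 := (min_le_right _ _).trans (min_le_left _ _)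
  have hd4 : δ ≤ δ4 := (min_le_right _ _).trans (min_le_right _ _)
  refine ⟨δ / 4, by positivity, max (max (max X1 X2) (max X3 X4)) (Real.exp (2 * B.ncard / δ)), fun X hX => ?_⟩
  have hXa : max (max X1 X2) (max X3 X4) ≤ X := (le_max_left _ _).trans hX
  have hXe : Real.exp (2 * B.ncard / δ) ≤ X := (le_max_right _ _).trans hX
  have hX0 : 0 < X := lt_of_lt_of_le (Real.exp_pos _) hXe
  have hlog : 2 * (B.ncard : ℝ) ≤ δ * Real.log X := by
    have := (Real.le_log_iff_exp_le hX0).2 hXe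
    rw [div_le_iff₀ hδpos] at this
    linarith
  have hlog0 : 0 ≤ Real.log X := by
    have : 0 ≤ δ * Real.log X := by
      have : (0 : ℝ) ≤ (B.ncard : ℝ) := Nat.cast_nonneg _
      linarith
    exact nonneg_of_mul_nonneg_right this hδpos
  have k1 := hX1 X (((le_max_left _ _).trans (le_max_left _ _)).trans hXa)
  have k2 := hX2 X (((le_max_right _ _).trans (le_max_left _ _)).trans hXa)
  have k3 := hX3 X (((le_max_left _ _).trans (le_max_right _ _)).trans hXa)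
  have k4 := hX4 X (((le_max_right _ _).trans (le_max_right _ _)).trans hXa)
  have m1 : δ * Real.log X ≤ δ1 * Real.log X := mul_le_mul_of_nonneg_right hd1 hlog0
  have m2 : δ * Real.log X ≤ δ2 * Real.log X := mul_le_mul_of_nonneg_right hd2 hlog0
  have m3 : δ * Real.log X ≤ δ3 * Real.log X := mul_le_mul_of_nonneg_right hd3 hlog0
  have m4 : δ * Real.log X ≤ δ4 * Real.log X := mul_le_mul_of_nonneg_right hd4 hlog0
  have c1 : ∀ s : ℤ, (s = 1 ∨ s = -1) → δ / 2 * Real.log X ≤ cnt X (P s) + cnt X (N s) := by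
    intro s hs
    have e := hun X _ _ _ (i1 s)
    rcases hl12 s hs with h | h
    · rw [← h] at e ⊢
      have : cnt X {n : ℤ | f n ≠ 0 ∧ l (f n) = l t1} = _ := rfl
      simp only [cnt] at e ⊢
      linarith
    · rw [← h] at e ⊢
      simp only [cnt] at e ⊢
      linarith
  have c2 : ∀ s : ℤ, (s = 1 ∨ s = -1) → δ / 2 * Real.log X ≤ cnt X (P s) + cnt X (N (-s)) := by
    intro s hs
    have e := hun X _ _ _ (i2 s)
    rcases hls12 s hs with h | h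
    · rw [← h] at e ⊢
      simp only [cnt] at e ⊢
      linarith
    · rw [← h] at e ⊢
      simp only [cnt] at e ⊢
      linarith
  by_contra hcon
  push Not at hcon
  obtain ⟨⟨s0, hs0, hP0⟩, s1, hs1, hN1⟩ := hcon
  have hP0' : cnt X (P s0) < δ / 4 * Real.log X := hP0
  have hN1' : cnt X (N s1) < δ / 4 * Real.log X := hN1
  have q1 := c1 s0 hs0
  have q2 := c2 s0 hs0
  have : s1 = s0 ∨ s1 = -s0 := by omega
  rcases this with h | h
  · rw [h] at hN1'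
    linarith
  · rw [h] at hN1'
    linarith

end Pool.Agent.Lib.MP_648c71_nt.IC
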