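import Pool.Agent.Lib.MP_648c71_nt.PellCubicGeneral
import Pool.Agent.Lib.MP_648c71_nt.PellCubicCount
import Pool.Agent.Lib.MP_648c71_nt.SimplestCubic

/-!
# Sign changes of `λ(f(n))` for cyclic cubic polynomials

`f = T^3 + a T^2 + b T + c` with discriminant `(d (a^2 - 3 b))^2`, `d` a nonzero integer;
for instance `f = T^3 - A T^2 - q (A + 3 q) T - q^3`, `q ≠ 0`.  The case `|d| = 1` are the translates of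
Shanks' simplest cubics.
-/

namespace Pool.Agent.Lib.MP_648c71_nt.IC.Cyclic

open MP648c71.PellCubic

theorem exists_of_count {P : ℤ → Prop} {δ : ℝ} (hδ : 0 < δ) {X : ℕ} (hX : 3 ≤ X)
    (h : δ * Real.log X ≤ Set.ncard {n : ℤ | (X:ℤ) < n ∧ n ≤ (X:ℤ) ^ 3 ∧ P n}) :
    ∃ n : ℤ, (X:ℤ) < n ∧ n ≤ (X:ℤ) ^ 6 ∧ P n := by
  have hlog : 0 < Real.log X := Real.log_pos (by exact_mod_cast (by omega : 1 < X))
  have h1 : 0 < Set.ncard {n : ℤ | (X:ℤ) < n ∧ n ≤ (X:ℤ) ^ 3 ∧ P n} := by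
    have h2 : (0:ℝ) < Set.ncard {n : ℤ | (X:ℤ) < n ∧ n ≤ (X:ℤ) ^ 3 ∧ P n} := lt_of_lt_of_le (mul_pos hδ hlog) h
    exact_mod_cast h2
  obtain ⟨n, hn1, hn2, hn3⟩ := Set.nonempty_of_ncard_ne_zero h1.ne'
  refine ⟨n, hn1, hn2.trans ?_, hn3⟩
  have hX1 : (1:ℤ) ≤ X := by exact_mod_cast (by omega : 1 ≤ X)
  exact pow_le_pow_right₀ hX1 (by norm_num)

/-- the case of the simplest cubics -/
theorem case_one {a b c d : ℤ} (hd : |d| = 1) (hne : a ^ 2 - 3 * b ≠ 0)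
    (hdisc : a ^ 2 * b ^ 2 - 4 * b ^ 3 - 4 * a ^ 3 * c - 27 * c ^ 2 + 18 * a * b * c
      = (d * (a ^ 2 - 3 * b)) ^ 2) :
    ∃ X₀ : ℕ, ∀ X : ℕ, X₀ ≤ X → ∀ s : ℤ, (s = 1 ∨ s = -1) →
      ∃ n : ℤ, (X:ℤ) < n ∧ n ≤ (X:ℤ) ^ 6 ∧ (n ^ 3 + a * n ^ 2 + b * n + c ≠ 0 ∧
        (-1:ℤ) ^ (ArithmeticFunction.cardFactors (n ^ 3 + a * n ^ 2 + b * n + c).natAbs) = s) := by
  have hdisc' : a ^ 2 * b ^ 2 - 4 * b ^ 3 - 4 * a ^ 3 * c - 27 * c ^ 2 + 18 * a * b * c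
      = (|d| * (a ^ 2 - 3 * b)) ^ 2 := by
    rw [hdisc, mul_pow, mul_pow, sq_abs]
  obtain ⟨A, r, hn⟩ := exists_normal_form hne hdisc'
  rw [hd] at hn
  have hr0 : 0 ≤ |r| := abs_nonneg r
  have hr1 : r ≤ |r| := le_abs_self r
  have hr2 : -|r| ≤ r := neg_abs_le r
  have hF : ∀ n : ℤ, F A 1 n = MP648c71.Simplest.F A n := by
    intro n
    unfold F MP648c71.Simplest.F
    ring
  set K : ℤ := 100 * (|A| + 2) ^ 3 + 2 ^ 6 * (1 + |r|) ^ 6 with hK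
  have hK0 : 0 ≤ K := by
    have := abs_nonneg A
    positivity
  refine ⟨K.toNat, fun X hX s hs => ?_⟩
  have hX' : K ≤ X := by
    have := Int.self_le_toNat K
    have h2 : (K.toNat : ℤ) ≤ X := by exact_mod_cast hX
    linarith
  have hA0 : 0 ≤ 100 * (|A| + 2) ^ 3 := by
    have := abs_nonneg A
    positivity
  have hR1 : 1 ≤ (1 + |r|) ^ 6 := one_le_pow₀ (by linarith)
  have hXr : 2 ^ 6 * (1 + |r|) ^ 6 ≤ X := by linarith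
  have hXA : 100 * (|A| + 2) ^ 3 ≤ X + |r| := by
    have : 0 ≤ 2 ^ 6 * (1 + |r|) ^ 6 := by positivity
    linarith
  obtain ⟨⟨n, h1, h2, h3⟩, -⟩ := MP648c71.Simplest.simplest A (X + |r|) hXA s hs
  have hX1 : (1:ℤ) ≤ X := by linarith
  have hval : (n + r) ^ 3 + a * (n + r) ^ 2 + b * (n + r) + c = MP648c71.Simplest.F A n := by
    rw [hn, hF]
    congr 1
    ring
  refine ⟨n + r, by linarith, ?_, ?_, ?_⟩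
  · -- the size
    have e1 : (X : ℤ) + |r| ≤ (1 + |r|) * X := by nlinarith
    have e2 : ((X : ℤ) + |r|) ^ 5 ≤ ((1 + |r|) * X) ^ 5 := pow_le_pow_left₀ (by linarith) e1 5
    have e3 : (1 + |r|) ^ 5 ≤ (1 + |r|) ^ 6 := pow_le_pow_right₀ (by linarith) (by norm_num)
    have e4 : (0:ℤ) ≤ (X:ℤ) ^ 5 := by positivity
    have e5 : ((1 + |r|) * (X:ℤ)) ^ 5 ≤ (1 + |r|) ^ 6 * (X:ℤ) ^ 5 := by
      rw [mul_pow]
      exact mul_le_mul_of_nonneg_right e3 e4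
    have e6 : |r| ≤ (1 + |r|) ^ 6 * (X:ℤ) ^ 5 := by
      have f1 : |r| ≤ (1 + |r|) ^ 6 := by
        have : (1 + |r|) ^ 1 ≤ (1 + |r|) ^ 6 := pow_le_pow_right₀ (by linarith) (by norm_num)
        linarith
      have f2 : (1:ℤ) ≤ (X:ℤ) ^ 5 := one_le_pow₀ hX1
      nlinarith
    have e7 : 2 * ((1 + |r|) ^ 6 * (X:ℤ) ^ 5) ≤ (X:ℤ) ^ 6 := by
      have f1 : 2 * (1 + |r|) ^ 6 ≤ X := by linarith
      have f2 : 2 * (1 + |r|) ^ 6 * (X:ℤ) ^ 5 ≤ X * (X:ℤ) ^ 5 := mul_le_mul_of_nonneg_right f1 e4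
      calc 2 * ((1 + |r|) ^ 6 * (X:ℤ) ^ 5) = 2 * (1 + |r|) ^ 6 * (X:ℤ) ^ 5 := by ring
        _ ≤ X * (X:ℤ) ^ 5 := f2
        _ = (X:ℤ) ^ 6 := by ring
    linarith
  · rw [hval]
    exact MP648c71.Simplest.F_ne_zero A n
  · rw [hval]
    exact h3

theorem cyclic (a b c d : ℤ) (hd : d ≠ 0) (hne : a ^ 2 - 3 * b ≠ 0)
    (hdisc : a ^ 2 * b ^ 2 - 4 * b ^ 3 - 4 * a ^ 3 * c - 27 * c ^ 2 + 18 * a * b * c
      = (d * (a ^ 2 - 3 * b)) ^ 2) :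
    (∃ X₀ : ℕ, ∀ X : ℕ, X₀ ≤ X → ∀ s : ℤ, (s = 1 ∨ s = -1) →
      ∃ n : ℤ, (X:ℤ) < n ∧ n ≤ (X:ℤ) ^ 6 ∧ (n ^ 3 + a * n ^ 2 + b * n + c ≠ 0 ∧
        (-1:ℤ) ^ (ArithmeticFunction.cardFactors (n ^ 3 + a * n ^ 2 + b * n + c).natAbs) = s)) ∧
    (2 ≤ |d| → ∃ δ : ℝ, 0 < δ ∧ ∃ X₀ : ℕ, ∀ X : ℕ, X₀ ≤ X → ∀ s : ℤ, (s = 1 ∨ s = -1) →
      δ * Real.log X ≤ Set.ncard {n : ℤ | (X:ℤ) < n ∧ n ≤ (X:ℤ) ^ 3 ∧
        (n ^ 3 + a * n ^ 2 + b * n + c ≠ 0 ∧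
        (-1:ℤ) ^ (ArithmeticFunction.cardFactors (n ^ 3 + a * n ^ 2 + b * n + c).natAbs) = s)}) := by
  have hcount : 2 ≤ |d| → ∃ δ : ℝ, 0 < δ ∧ ∃ X₀ : ℕ, ∀ X : ℕ, X₀ ≤ X → ∀ s : ℤ, (s = 1 ∨ s = -1) →
      δ * Real.log X ≤ Set.ncard {n : ℤ | (X:ℤ) < n ∧ n ≤ (X:ℤ) ^ 3 ∧
        (n ^ 3 + a * n ^ 2 + b * n + c ≠ 0 ∧
        (-1:ℤ) ^ (ArithmeticFunction.cardFactors (n ^ 3 + a * n ^ 2 + b * n + c).natAbs) = s)} :=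
    fun h2 => count_of_scale (P := fun s n => n ^ 3 + a * n ^ 2 + b * n + c ≠ 0 ∧
      lam (n ^ 3 + a * n ^ 2 + b * n + c) = s) (scale_general h2 hne hdisc)
  refine ⟨?_, hcount⟩
  rcases eq_or_ne |d| 1 with h1 | h1
  · exact case_one h1 hne hdisc
  · have h2 : 2 ≤ |d| := by
      have h3 : 0 < |d| := abs_pos.2 hd
      omega
    obtain ⟨δ, hδ, X₀, h⟩ := hcount h2
    exact ⟨X₀ + 3, fun X hX s hs => exists_of_count hδ (by omega) (h X (by omega) s hs)⟩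

end Pool.Agent.Lib.MP_648c71_nt.IC.Cyclic
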