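import Mathlib

/-!
Definitions used in the statement of `IntegerCubics`. The cubic `T^3 + a T^2 + b T + c` is given by its coefficients `a b c`.
-/

set_option autoImplicit false

namespace Pool.Agent.Lib.MP_648c71_nt.IC

open ArithmeticFunction

/-- `t` is admissible for the cubic `f = T^3 + a T^2 + b T + c`: for some integers `u`, `d ≠ 0`, `m > 0` not a square,
`f(T + u) = (T^2 - m)(T + d) + d t T`, and `x^2 = t^2 + 4 m y^2` has an integral solution with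
`t ∣ (y^2 - 1)(d^2 y^2 - m)` (for instance `y = 0` if `t ∣ m`, and `y = 1` if `t^2 + 4m` is a square). -/
def Admissible (a b c t : ℤ) : Prop :=
  t ≠ 0 ∧ ∃ u d m x y : ℤ, d ≠ 0 ∧ 0 < m ∧ ¬ IsSquare m ∧
    (∀ n : ℤ, (n + u) ^ 3 + a * (n + u) ^ 2 + b * (n + u) + c = (n ^ 2 - m) * (n + d) + d * t * n) ∧
    x ^ 2 = t ^ 2 + 4 * m * y ^ 2 ∧ t ∣ (y ^ 2 - 1) * (d ^ 2 * y ^ 2 - m)

/-- For all large `X` each of the values `1`, `-1` is taken by `λ(n^3 + a n^2 + b n + c)` for at least `δ log X` integers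
`1 ≤ n ≤ X`, or each is taken for at least `δ log X` integers `-X ≤ n ≤ -1`. -/
def BothSigns (a b c : ℤ) : Prop :=
  ∃ δ : ℝ, 0 < δ ∧ ∃ X₀ : ℕ, ∀ X : ℕ, X₀ ≤ X →
    (∀ s : ℤ, s = 1 ∨ s = -1 → δ * Real.log X ≤
      ({n : ℤ | 1 ≤ n ∧ n ≤ X ∧ liouville (n ^ 3 + a * n ^ 2 + b * n + c).natAbs = s}.ncard : ℝ)) ∨
    (∀ s : ℤ, s = 1 ∨ s = -1 → δ * Real.log X ≤
      ({n : ℤ | -X ≤ n ∧ n ≤ -1 ∧ liouville (n ^ 3 + a * n ^ 2 + b * n + c).natAbs = s}.ncard : ℝ))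

/-- The discriminant of `T^3 + a T^2 + b T + c`. -/
def disc (a b c : ℤ) : ℤ := a ^ 2 * b ^ 2 - 4 * b ^ 3 - 4 * a ^ 3 * c - 27 * c ^ 2 + 18 * a * b * c

/-- The coefficients of the family `T^3 - 2h(2g+1) T^2 + (8gh^2 + (2g^2+8g-1)h) T - 2h^2(2g+1)^2`. -/
def famA (g h : ℤ) : ℤ := -2 * h * (2 * g + 1)

/-- See `famA`. -/
def famB (g h : ℤ) : ℤ := 8 * g * h ^ 2 + (2 * g ^ 2 + 8 * g - 1) * h

/-- See `famA`. -/
def famC (g h : ℤ) : ℤ := -2 * h ^ 2 * (2 * g + 1) ^ 2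

end Pool.Agent.Lib.MP_648c71_nt.IC
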