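import Pool.Agent.Lib.MP_648c71_nt.IC.Core

set_option autoImplicit false

namespace Pool.Agent.Lib.MP_648c71_nt.IC

theorem not_sq_two_mod_four (x : ℤ) (hx : x % 4 = 2) : ¬ IsSquare x := by
  rintro ⟨s, hs⟩
  have h0 : s % 4 = 0 ∨ s % 4 = 1 ∨ s % 4 = 2 ∨ s % 4 = 3 := by omega
  have hm : (s * s) % 4 = ((s % 4) * (s % 4)) % 4 := Int.mul_emod s s 4
  rw [← hs, hx] at hm
  rcases h0 with h | h | h | h <;> rw [h] at hm <;> norm_num at hm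

/-- (F3) positivity and nonsquares. -/
theorem fam_arith (g h : ℤ) (hg0 : g ≠ 0) (hg1 : g ≠ 1) (hh : h % 4 = 2) :
    0 < 4 * h ^ 2 * g ^ 2 - h * (2 * g ^ 2 + 6 * g + 1) ∧
    ¬ IsSquare (4 * h ^ 2 * g ^ 2 - h * (2 * g ^ 2 + 6 * g + 1)) ∧
    0 < h ^ 2 * (2 * g - 1) ^ 2 - h * (2 * g ^ 2 + 4 * g - 3) ∧
    ¬ IsSquare (h ^ 2 * (2 * g - 1) ^ 2 - h * (2 * g ^ 2 + 4 * g - 3)) ∧
    2 ∣ h ^ 2 * (2 * g - 1) ^ 2 - h * (2 * g ^ 2 + 4 * g - 3) ∧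
    2 * h * (g - 1) ≠ 0 ∧ h * (2 * g + 1) ≠ 0 := by
  have hg : 2 ≤ g ∨ g ≤ -1 := by omega
  have hhh : 2 ≤ h ∨ h ≤ -2 := by omega
  obtain ⟨j, hj⟩ : ∃ j, h = 4 * j + 2 := ⟨h / 4, by omega⟩
  have hh0 : h ≠ 0 := by omega
  refine ⟨?_, ?_, ?_, ?_, ?_, ?_, ?_⟩
  · have e : 4 * h ^ 2 * g ^ 2 - h * (2 * g ^ 2 + 6 * g + 1) =
        h * (4 * h * g ^ 2 - 2 * g ^ 2 - 6 * g - 1) := by ring
    rw [e]
    rcases hhh with hp | hn
    · refine mul_pos (by linarith) ?_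
      have h1 : 0 ≤ (h - 2) * g ^ 2 := mul_nonneg (by linarith) (sq_nonneg g)
      rcases hg with h2 | h2
      · nlinarith
      · nlinarith
    · refine mul_pos_of_neg_of_neg (by linarith) ?_
      have h1 : 0 ≤ (-2 - h) * g ^ 2 := mul_nonneg (by linarith) (sq_nonneg g)
      rcases hg with h2 | h2
      · nlinarith
      · nlinarith
  · apply not_sq_two_mod_four
    subst hj
    have e : 4 * (4 * j + 2) ^ 2 * g ^ 2 - (4 * j + 2) * (2 * g ^ 2 + 6 * g + 1) =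
        4 * ((4 * j + 2) ^ 2 * g ^ 2 - j * (2 * g ^ 2 + 6 * g + 1) - g ^ 2 - 3 * g - 1) + 2 := by
      ring
    rw [e]; omega
  · have e : h ^ 2 * (2 * g - 1) ^ 2 - h * (2 * g ^ 2 + 4 * g - 3) =
        h * (h * (2 * g - 1) ^ 2 - 2 * g ^ 2 - 4 * g + 3) := by ring
    rw [e]
    rcases hhh with hp | hn
    · refine mul_pos (by linarith) ?_
      have h1 : 0 ≤ (h - 2) * (2 * g - 1) ^ 2 := mul_nonneg (by linarith) (sq_nonneg _)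
      rcases hg with h2 | h2
      · nlinarith
      · nlinarith
    · refine mul_pos_of_neg_of_neg (by linarith) ?_
      have h1 : 0 ≤ (-2 - h) * (2 * g - 1) ^ 2 := mul_nonneg (by linarith) (sq_nonneg _)
      rcases hg with h2 | h2
      · nlinarith
      · nlinarith
  · apply not_sq_two_mod_four
    subst hj
    have e : (4 * j + 2) ^ 2 * (2 * g - 1) ^ 2 - (4 * j + 2) * (2 * g ^ 2 + 4 * g - 3) =
        4 * ((2 * j + 1) ^ 2 * (2 * g - 1) ^ 2 - j * (2 * g ^ 2 + 4 * g - 3) - g ^ 2 - 2 * g + 1)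
          + 2 := by
      ring
    rw [e]; omega
  · subst hj
    exact ⟨2 * (2 * j + 1) ^ 2 * (2 * g - 1) ^ 2 - (2 * j + 1) * (2 * g ^ 2 + 4 * g - 3), by ring⟩
  · have : g - 1 ≠ 0 := by omega
    exact mul_ne_zero (mul_ne_zero two_ne_zero hh0) this
  · have : 2 * g + 1 ≠ 0 := by omega
    exact mul_ne_zero hh0 this


lemma noroot3 : ∀ g h n : ZMod 3, g ≠ 1 → h ≠ 0 → n ^ 3 + (-2 * h * (2 * g + 1)) * n ^ 2 +
    (8 * g * h ^ 2 + (2 * g ^ 2 + 8 * g - 1) * h) * n + (-2 * h ^ 2 * (2 * g + 1) ^ 2) ≠ 0 := by decide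

/-- Irreducibility. -/
theorem fam_irreducible (g h : ℤ) (hg3 : g % 3 ≠ 1) (hh3 : h % 3 ≠ 0) :
    Irreducible (Polynomial.X ^ 3
      + Polynomial.C ((-2 * h * (2 * g + 1) : ℤ) : ℚ) * Polynomial.X ^ 2
      + Polynomial.C ((8 * g * h ^ 2 + (2 * g ^ 2 + 8 * g - 1) * h : ℤ) : ℚ) * Polynomial.X
      + Polynomial.C ((-2 * h ^ 2 * (2 * g + 1) ^ 2 : ℤ) : ℚ) : Polynomial ℚ) := by
  have noroot : ∀ n : ℤ, n ^ 3 + (-2 * h * (2 * g + 1)) * n ^ 2 +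
      (8 * g * h ^ 2 + (2 * g ^ 2 + 8 * g - 1) * h) * n + (-2 * h ^ 2 * (2 * g + 1) ^ 2) ≠ 0 := by
    intro n hn
    have h1 := congrArg (fun z : ℤ => (z : ZMod 3)) hn
    push_cast at h1
    refine noroot3 g h n ?_ ?_ h1
    · intro hc
      have h2 : ((g : ℤ) : ZMod 3) = ((1 : ℤ) : ZMod 3) := by rw [hc]; norm_num
      have h3 := (ZMod.intCast_eq_intCast_iff' g 1 3).1 h2
      omega
    · intro hc
      have h2 : ((h : ℤ) : ZMod 3) = ((0 : ℤ) : ZMod 3) := by rw [hc]; norm_num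
      have h3 := (ZMod.intCast_eq_intCast_iff' h 0 3).1 h2
      omega
  set a : ℤ := -2 * h * (2 * g + 1) with ha
  set b : ℤ := 8 * g * h ^ 2 + (2 * g ^ 2 + 8 * g - 1) * h with hb
  set c : ℤ := -2 * h ^ 2 * (2 * g + 1) ^ 2 with hc
  clear_value a b c
  set p : Polynomial ℤ := Polynomial.X ^ 3 + Polynomial.C a * Polynomial.X ^ 2
    + Polynomial.C b * Polynomial.X + Polynomial.C c with hp
  have hmap : (Polynomial.X ^ 3 + Polynomial.C ((a : ℤ) : ℚ) * Polynomial.X ^ 2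
      + Polynomial.C ((b : ℤ) : ℚ) * Polynomial.X + Polynomial.C ((c : ℤ) : ℚ) : Polynomial ℚ)
      = p.map (algebraMap ℤ ℚ) := by
    rw [hp]
    simp
  have hmonic : p.Monic := by rw [hp]; monicity!
  have hdeg : p.natDegree = 3 := by rw [hp]; compute_degree!
  rw [hmap]
  have hnd : (p.map (algebraMap ℤ ℚ)).natDegree = 3 := by
    rw [hmonic.natDegree_map, hdeg]
  rw [Polynomial.irreducible_iff_roots_eq_zero_of_degree_le_three (by rw [hnd]; norm_num)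
    (by rw [hnd])]
  rw [Multiset.eq_zero_iff_forall_notMem]
  intro r hr
  have hroot : Polynomial.aeval r p = 0 := by
    have := (Polynomial.mem_roots'.mp hr).2
    rw [Polynomial.IsRoot.def, Polynomial.eval_map_algebraMap] at this
    exact this
  obtain ⟨n, hn⟩ := isInteger_of_is_root_of_monic hmonic hroot
  have hn' : (n : ℚ) = r := by simpa using hn
  apply noroot n
  rw [hp] at hroot
  simp at hroot
  rw [← hn'] at hroot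
  exact_mod_cast hroot

/-- (F5) the discriminant is `32` times an odd number, hence not a square. -/
theorem fam_disc (g h : ℤ) (hh : h % 4 = 2) :
    ¬ IsSquare ((-2 * h * (2 * g + 1)) ^ 2 * (8 * g * h ^ 2 + (2 * g ^ 2 + 8 * g - 1) * h) ^ 2
      - 4 * (8 * g * h ^ 2 + (2 * g ^ 2 + 8 * g - 1) * h) ^ 3
      - 4 * (-2 * h * (2 * g + 1)) ^ 3 * (-2 * h ^ 2 * (2 * g + 1) ^ 2)
      - 27 * (-2 * h ^ 2 * (2 * g + 1) ^ 2) ^ 2
      + 18 * (-2 * h * (2 * g + 1)) * (8 * g * h ^ 2 + (2 * g ^ 2 + 8 * g - 1) * h)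
        * (-2 * h ^ 2 * (2 * g + 1) ^ 2)) := by
  obtain ⟨j, hj⟩ : ∃ j, h = 2 * (2 * j + 1) := ⟨h / 4, by omega⟩
  set u : ℤ := 2 * j + 1 with hu
  have e : (-2 * h * (2 * g + 1)) ^ 2 * (8 * g * h ^ 2 + (2 * g ^ 2 + 8 * g - 1) * h) ^ 2
      - 4 * (8 * g * h ^ 2 + (2 * g ^ 2 + 8 * g - 1) * h) ^ 3
      - 4 * (-2 * h * (2 * g + 1)) ^ 3 * (-2 * h ^ 2 * (2 * g + 1) ^ 2)
      - 27 * (-2 * h ^ 2 * (2 * g + 1) ^ 2) ^ 2
      + 18 * (-2 * h * (2 * g + 1)) * (8 * g * h ^ 2 + (2 * g ^ 2 + 8 * g - 1) * h)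
        * (-2 * h ^ 2 * (2 * g + 1) ^ 2)
      = 32 * (u ^ 3 + 2 * (u ^ 3 * (-4 * g ^ 6 - 48 * g ^ 5 - 186 * g ^ 4 - 208 * g ^ 3
          + 93 * g ^ 2 - 12 * g)
        + u ^ 4 * (16 * g ^ 6 + 336 * g ^ 5 + 756 * g ^ 4 - 296 * g ^ 3 + 420 * g ^ 2
          - 216 * g - 44)
        + u ^ 5 * (-768 * g ^ 5 + 256 * g ^ 4 - 1216 * g ^ 3 + 960 * g ^ 2 - 64 * g - 32)
        + u ^ 6 * (1024 * g ^ 4 - 1024 * g ^ 3 + 256 * g ^ 2))) := by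
    rw [hj]; ring
  rw [e]
  have hu3 : ∃ w, u ^ 3 = 2 * w + 1 := ⟨4 * j ^ 3 + 6 * j ^ 2 + 3 * j, by rw [hu]; ring⟩
  obtain ⟨w, hw⟩ := hu3
  rw [hw]
  rintro ⟨s, hs⟩
  generalize ((2 * w + 1) * (-4 * g ^ 6 - 48 * g ^ 5 - 186 * g ^ 4 - 208 * g ^ 3
          + 93 * g ^ 2 - 12 * g)
        + u ^ 4 * (16 * g ^ 6 + 336 * g ^ 5 + 756 * g ^ 4 - 296 * g ^ 3 + 420 * g ^ 2
          - 216 * g - 44)
        + u ^ 5 * (-768 * g ^ 5 + 256 * g ^ 4 - 1216 * g ^ 3 + 960 * g ^ 2 - 64 * g - 32)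
        + u ^ 6 * (1024 * g ^ 4 - 1024 * g ^ 3 + 256 * g ^ 2)) = K at hs
  have hs' : s * s = 64 * (w + K) + 32 := by rw [← hs]; ring
  have hz := congrArg (fun z : ℤ => (z : ZMod 64)) hs'
  push_cast at hz
  have h64 : (64 : ZMod 64) = 0 := by decide
  rw [h64, zero_mul, zero_add] at hz
  have key : ∀ x : ZMod 64, x * x ≠ 32 := by decide
  exact key _ hz

/-- (F6) for every `g₀` only finitely many `g` give a cubic of the form `r^3 F(g₀)(t)`,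
`n = r t + s`, `r, s` rational, `r ≠ 0`. -/
theorem fam_classes (h : ℤ) (hh : h = 10) (g₀ : ℤ) :
    {g : ℤ | ∃ r s : ℚ, r ≠ 0 ∧ ∀ t : ℚ,
      (r * t + s) ^ 3 - 2 * h * (2 * g + 1) * (r * t + s) ^ 2
        + (8 * g * h ^ 2 + (2 * g ^ 2 + 8 * g - 1) * h) * (r * t + s) - 2 * h ^ 2 * (2 * g + 1) ^ 2
      = r ^ 3 * (t ^ 3 - 2 * h * (2 * g₀ + 1) * t ^ 2
        + (8 * g₀ * h ^ 2 + (2 * g₀ ^ 2 + 8 * g₀ - 1) * h) * t
          - 2 * h ^ 2 * (2 * g₀ + 1) ^ 2)}.Finite := by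
  subst hh
  set P0 : ℚ := 10 * (154 * (g₀ : ℚ) ^ 2 - 104 * g₀ + 43) with hP0
  set Q0 : ℚ := 400 * (-302 * (g₀ : ℚ) ^ 3 + 267 * (g₀ : ℚ) ^ 2 + 93 * g₀ - 58) with hQ0
  have hP0pos : 0 < P0 := by
    rw [hP0]; nlinarith [sq_nonneg (154 * (g₀ : ℚ) - 52)]
  let R : Polynomial ℚ := Polynomial.C (Q0 ^ 2) *
      (Polynomial.C 10 * (Polynomial.C 154 * Polynomial.X ^ 2 - Polynomial.C 104 * Polynomial.X
        + Polynomial.C 43)) ^ 3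
    - Polynomial.C (P0 ^ 3) *
      (Polynomial.C 400 * (Polynomial.C (-302) * Polynomial.X ^ 3
        + Polynomial.C 267 * Polynomial.X ^ 2 + Polynomial.C 93 * Polynomial.X
        - Polynomial.C 58)) ^ 2
  have hReval : ∀ x : ℚ, R.eval x = Q0 ^ 2 * (10 * (154 * x ^ 2 - 104 * x + 43)) ^ 3
      - P0 ^ 3 * (400 * (-302 * x ^ 3 + 267 * x ^ 2 + 93 * x - 58)) ^ 2 := by
    intro x
    simp only [R, Polynomial.eval_sub, Polynomial.eval_add, Polynomial.eval_mul,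
      Polynomial.eval_pow, Polynomial.eval_C, Polynomial.eval_X]
  have hR : R ≠ 0 := by
    intro h0
    have h1 := hReval 1
    have h2 := hReval 0
    rw [h0, Polynomial.eval_zero] at h1 h2
    have hq : Q0 ^ 2 = 0 := by nlinarith
    rw [hq] at h2
    have : P0 ^ 3 = 0 := by nlinarith
    exact (pow_ne_zero 3 hP0pos.ne') this
  refine Set.Finite.subset ((Polynomial.finite_setOfPred_isRoot hR).preimage
    (Int.cast_injective.injOn (s := ((fun z : ℤ => (z : ℚ)) ⁻¹' {x | R.IsRoot x})))) ?_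
  rintro g ⟨r, s, hr, hrs⟩
  show R.IsRoot (g : ℚ)
  rw [Polynomial.IsRoot.def, hReval]
  set a : ℚ := -2 * 10 * (2 * (g : ℚ) + 1) with ha
  set b : ℚ := 8 * (g : ℚ) * 10 ^ 2 + (2 * (g : ℚ) ^ 2 + 8 * g - 1) * 10 with hb
  set c : ℚ := -2 * 10 ^ 2 * (2 * (g : ℚ) + 1) ^ 2 with hc
  set a0 : ℚ := -2 * 10 * (2 * (g₀ : ℚ) + 1) with ha0
  set b0 : ℚ := 8 * (g₀ : ℚ) * 10 ^ 2 + (2 * (g₀ : ℚ) ^ 2 + 8 * g₀ - 1) * 10 with hb0
  set c0 : ℚ := -2 * 10 ^ 2 * (2 * (g₀ : ℚ) + 1) ^ 2 with hc0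
  have e0 := hrs 0
  have e1 := hrs 1
  have e2 := hrs (-1)
  push_cast at e0 e1 e2
  have f0 : s ^ 3 + a * s ^ 2 + b * s + c = r ^ 3 * c0 := by
    rw [ha, hb, hc, hc0]; linear_combination e0
  have f2 : 3 * r ^ 2 * s + a * r ^ 2 = r ^ 3 * a0 := by
    have : 2 * (3 * r ^ 2 * s + a * r ^ 2) = 2 * (r ^ 3 * a0) := by
      rw [ha, ha0]; linear_combination e1 + e2 - 2 * e0
    linarith
  have f1 : 3 * r * s ^ 2 + 2 * a * r * s + b * r = r ^ 3 * b0 := by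
    have : 2 * (3 * r * s ^ 2 + 2 * a * r * s + b * r) = 2 * (r ^ 3 * b0) := by
      rw [ha, hb, hb0]; linear_combination e1 - e2
    linarith
  have hr2 : r ^ 2 ≠ 0 := pow_ne_zero 2 hr
  have ga : a = r * a0 - 3 * s := by
    have : r ^ 2 * a = r ^ 2 * (r * a0 - 3 * s) := by linear_combination f2
    exact mul_left_cancel₀ hr2 this
  have gb : b = r ^ 2 * b0 - 3 * s ^ 2 - 2 * a * s := by
    have : r * b = r * (r ^ 2 * b0 - 3 * s ^ 2 - 2 * a * s) := by linear_combination f1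
    exact mul_left_cancel₀ hr this
  have gc : c = r ^ 3 * c0 - s ^ 3 - a * s ^ 2 - b * s := by linear_combination f0
  have hP : a ^ 2 - 3 * b = r ^ 2 * (a0 ^ 2 - 3 * b0) := by rw [gb, ga]; ring
  have hQ : 2 * a ^ 3 - 9 * a * b + 27 * c = r ^ 3 * (2 * a0 ^ 3 - 9 * a0 * b0 + 27 * c0) := by
    rw [gc, gb, ga]; ring
  have p1 : 10 * (154 * (g : ℚ) ^ 2 - 104 * g + 43) = a ^ 2 - 3 * b := by rw [ha, hb]; ring
  have p2 : P0 = a0 ^ 2 - 3 * b0 := by rw [hP0, ha0, hb0]; ring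
  have q1 : 400 * (-302 * (g : ℚ) ^ 3 + 267 * (g : ℚ) ^ 2 + 93 * g - 58)
      = 2 * a ^ 3 - 9 * a * b + 27 * c := by rw [ha, hb, hc]; ring
  have q2 : Q0 = 2 * a0 ^ 3 - 9 * a0 * b0 + 27 * c0 := by rw [hQ0, ha0, hb0, hc0]; ring
  rw [p1, q1, p2, q2, hP, hQ]
  ring


lemma fam_adm1 {g h : ℤ} (hg0 : g ≠ 0) (hg1 : g ≠ 1) (hh : h % 4 = 2) :
    Admissible (-2 * h * (2 * g + 1)) (8 * g * h ^ 2 + (2 * g ^ 2 + 8 * g - 1) * h) (-2 * h ^ 2 * (2 * g + 1) ^ 2) 1 := by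
  obtain ⟨k1, k2, -, -, -, k6, -⟩ := fam_arith g h hg0 hg1 hh
  refine ⟨one_ne_zero, 2 * h * g, 2 * h * (g - 1), 4 * h ^ 2 * g ^ 2 - h * (2 * g ^ 2 + 6 * g + 1), 1, 0, k6, k1, k2,
    fun n => by ring, by norm_num, one_dvd _⟩

lemma fam_adm2 {g h : ℤ} (hg0 : g ≠ 0) (hg1 : g ≠ 1) (hh : h % 4 = 2) :
    Admissible (-2 * h * (2 * g + 1)) (8 * g * h ^ 2 + (2 * g ^ 2 + 8 * g - 1) * h) (-2 * h ^ 2 * (2 * g + 1) ^ 2) 2 := by
  obtain ⟨-, -, k3, k4, k5, -, k7⟩ := fam_arith g h hg0 hg1 hh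
  refine ⟨two_ne_zero, h + 2 * h * g, h * (2 * g + 1), h ^ 2 * (2 * g - 1) ^ 2 - h * (2 * g ^ 2 + 4 * g - 3), 2, 0, k7,
    k3, k4, fun n => by ring, by norm_num, ?_⟩
  obtain ⟨w, hw⟩ := k5
  exact ⟨w, by rw [hw]; ring⟩

end Pool.Agent.Lib.MP_648c71_nt.IC
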